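import Pool.Agent.K1H97.FU.Core

/-!
# The twist by a good prime and an even number of additional primes: four Selmer classes
-/

set_option autoImplicit false

namespace Pool.Agent.K1H97.FU

open Finset
open Pool.Agent.Y676
open Pool.Agent.K1H97.CU
open Pool.Agent.K1H97.FC (dv_mul_unit dv_three)
open Pool.Agent.W307.SE (Loc)
open Pool.Agent.W307.RT (Sh)
open Pool.Agent.TH841.SH (SelG LocC isR_Sh)
open Pool.Agent.W262.RK (dv sgn sg0)

/-- the symbols of the other part of the class -/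
def Ph (x₀ : Fin 3) (i j : Bool) : ℤ × ℤ :=
  let a : ℤ := if 0 = x₀ then 1 else -1
  let b : ℤ := if 1 = x₀ then 1 else -1
  let c : ℤ := if 2 = x₀ then 1 else -1
  (if i then (if j then b else a) else (if j then a * b else 1),
    if i then (if j then c else a * c) else (if j then a else 1))

lemma Ph_inj : ∀ (x₀ : Fin 3) (i j i' j' : Bool), Ph x₀ i j = Ph x₀ i' j' → i = i' ∧ j = j' := by
  decide

lemma Ph_zero : ∀ x₀ : Fin 3, Ph x₀ false false = (1, 1) := by decide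

section

variable {Y : ℕ} {A B : ℤ} {x₀ : Fin 3} {q : ℕ} {T : Finset ℕ}

lemma local_Ph (hT : GR Y A B x₀ q T) {f : ℤ × ℤ}
    (hf : InSel (pT (insert q T) * A) (pT (insert q T) * B) f) {T1 T2 : Finset ℕ}
    (sub1 : T1 ⊆ T) (sub2 : T2 ⊆ T) {g1 g2 : ℤ} (e1 : f.1 = pT T1 * g1) (e2 : f.2 = pT T2 * g2)
    (n1 : ∀ r ∈ insert q T, ¬ (r : ℤ) ∣ g1)
    (n2 : ∀ r ∈ insert q T, ¬ (r : ℤ) ∣ g2) (hqp : q.Prime) {r : ℕ} (hr : r ∈ T) :
    (jacobiSym g1 r, jacobiSym g2 r) = Ph x₀ (decide (r ∈ T1)) (decide (r ∈ T2)) := by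
  rw [local_r hT hf sub1 sub2 e1 e2 n1 n2 hqp hr, hT.jA r hr, hT.jB r hr, hT.jC r hr]
  unfold Ph
  by_cases i1 : r ∈ T1 <;> by_cases i2 : r ∈ T2 <;> simp [i1, i2]

/-- **the classes unramified at `q` are trivial** -/
theorem trivU (hY : 2 ≤ Y) (h1 : Ty1 Y A B) {s : ℕ → Bool}
    (hs : ∀ e, InS Y A B s e → e = (1, 1)) (hq : GoodQ Y A B s q) (hT : GR Y A B x₀ q T)
    (hev : Even T.card) {f : ℤ × ℤ}
    (hf : InSel (pT (insert q T) * A) (pT (insert q T) * B) f) (q1 : ¬ (q : ℤ) ∣ f.1)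
    (q2 : ¬ (q : ℤ) ∣ f.2) : f = (1, 1) := by
  have hTp := hT.pr
  have hUp := pr_U hq.pr hTp
  have hN : A * B * (A - B) ≠ 0 := fun h => hq.nd (by rw [h]; exact dvd_zero _)
  obtain ⟨g1, e1, sq1, n1⟩ := split (insert q T) hUp hf.sq1
  obtain ⟨g2, e2, sq2, n2⟩ := split (insert q T) hUp hf.sq2
  rw [filter_insert, if_neg q1] at e1
  rw [filter_insert, if_neg q2] at e2
  obtain ⟨T1, hT1⟩ : ∃ T1, T1 = T.filter (fun q : ℕ => (q : ℤ) ∣ f.1) := ⟨_, rfl⟩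
  obtain ⟨T2, hT2⟩ : ∃ T2, T2 = T.filter (fun q : ℕ => (q : ℤ) ∣ f.2) := ⟨_, rfl⟩
  rw [← hT1] at e1
  rw [← hT2] at e2
  have sub1 : T1 ⊆ T := by rw [hT1]; exact filter_subset _ _
  have sub2 : T2 ⊆ T := by rw [hT2]; exact filter_subset _ _
  have hm : ∀ g : ℤ, (∀ r ∈ insert q T, ¬ (r : ℤ) ∣ g) → (g ∣ f.1 ∨ g ∣ f.2) → Squarefree g →
      4 * g.natAbs ∣ MM Y A B := by
    intro g hg hgf hsq
    refine dvd_MM hsq fun p hp hpg => ?_
    by_contra hcon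
    rw [not_or, not_le] at hcon
    have : Fact p.Prime := ⟨hp⟩
    have hpU : p ∉ insert q T := fun h => hg p h hpg
    obtain ⟨k1, k2⟩ := supp hf hY hcon.1 (nd_pT hUp hp hpU) hcon.2
    rcases hgf with h | h
    · exact k1 (hpg.trans h)
    · exact k2 (hpg.trans h)
  have m1 := hm g1 n1 (Or.inl ⟨pT T1, by rw [e1]; ring⟩) sq1
  have m2 := hm g2 n2 (Or.inr ⟨pT T2, by rw [e2]; ring⟩) sq2
  have hod : ∀ r ∈ T, Odd r := fun r hr => by
    have := hT.m8 r hr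
    exact Nat.odd_iff.2 (by omega)
  have hcon : ∀ r ∈ T, ∀ r' ∈ T, (r ∈ T1 ↔ r' ∈ T1) ∧ (r ∈ T2 ↔ r' ∈ T2) := by
    intro r hr r' hr'
    have a1 := local_Ph hT hf sub1 sub2 e1 e2 n1 n2 hq.pr hr
    have a2 := local_Ph hT hf sub1 sub2 e1 e2 n1 n2 hq.pr hr'
    rw [jac_mod m1 (hod r hr) (hod r' hr') (hT.cg r hr r' hr'),
      jac_mod m2 (hod r hr) (hod r' hr') (hT.cg r hr r' hr'), a2] at a1
    obtain ⟨b1, b2⟩ := Ph_inj _ _ _ _ _ a1
    rw [decide_eq_decide] at b1 b2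
    exact ⟨b1.symm, b2.symm⟩
  have hcard : ∀ S ⊆ T, (∀ r ∈ T, ∀ r' ∈ T, (r ∈ S ↔ r' ∈ S)) → Even S.card := by
    intro S hS h
    rcases S.eq_empty_or_nonempty with rfl | ⟨r, hr⟩
    · exact ⟨0, rfl⟩
    · have : S = T := Subset.antisymm hS fun r' hr' => (h r (hS hr) r' hr').1 hr
      rw [this]
      exact hev
  obtain ⟨c1, c2⟩ := core hY h1 hs hq hT hev hf sub1 sub2 e1 e2 sq1 sq2 n1 n2
    (hcard T1 sub1 fun r hr r' hr' => (hcon r hr r' hr').1)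
    (hcard T2 sub2 fun r hr r' hr' => (hcon r hr r' hr').2)
  have hemp : ∀ r ∈ T, r ∉ T1 ∧ r ∉ T2 := by
    intro r hr
    have a1 := local_Ph hT hf sub1 sub2 e1 e2 n1 n2 hq.pr hr
    rw [c1, c2, jacobiSym.one_left, ← Ph_zero x₀] at a1
    obtain ⟨b1, b2⟩ := Ph_inj _ _ _ _ _ a1
    exact ⟨of_decide_eq_false b1.symm, of_decide_eq_false b2.symm⟩
  have h5 : T1 = ∅ := by
    rw [eq_empty_iff_forall_notMem]
    exact fun q hq => (hemp q (sub1 hq)).1 hq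
  have h6 : T2 = ∅ := by
    rw [eq_empty_iff_forall_notMem]
    exact fun q hq => (hemp q (sub2 hq)).2 hq
  have h7 : pT ∅ = 1 := by
    unfold pT
    simp
  rw [h5, h7, c1, one_mul] at e1
  rw [h6, h7, c2, one_mul] at e2
  exact Prod.ext e1 e2

lemma sq_div {p : ℕ} (hp : p.Prime) {m : ℤ} (h : IsSquare ((p : ℤ) ^ 2 * m)) : IsSquare m := by
  have hpi : Prime (p : ℤ) := Nat.prime_iff_prime_int.1 hp
  obtain ⟨r, hr⟩ := h
  have h1 : (p : ℤ) ∣ r * r := ⟨p * m, by rw [← hr]; ring⟩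
  obtain ⟨u, rfl⟩ := (hpi.dvd_or_dvd h1).elim id id
  refine ⟨u, ?_⟩
  have h2 : (p : ℤ) ^ 2 * m = (p : ℤ) ^ 2 * (u * u) := by rw [hr]; ring
  exact mul_left_cancel₀ (pow_ne_zero 2 hpi.ne_zero) h2

/-- **the Selmer classes are the classes of the torsion points** -/
theorem selU_cls (hY : 2 ≤ Y) (h1 : Ty1 Y A B) {s : ℕ → Bool}
    (hs : ∀ e, InS Y A B s e → e = (1, 1)) (hq : GoodQ Y A B s q) (hT : GR Y A B x₀ q T)
    (hev : Even T.card) {e : ℤ × ℤ} (he : InSel (pT (insert q T) * A) (pT (insert q T) * B) e) :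
    IsSquare (e.1 * (TT (pT (insert q T) * A) (pT (insert q T) * B) (dv q e.1) (dv q e.2)).1) ∧
    IsSquare (e.2 * (TT (pT (insert q T) * A) (pT (insert q T) * B) (dv q e.1) (dv q e.2)).2) := by
  have hTp := hT.pr
  have hUp := pr_U hq.pr hTp
  have hqp := hq.pr
  have hqi : Prime (q : ℤ) := Nat.prime_iff_prime_int.1 hqp
  have hN : A * B * (A - B) ≠ 0 := fun h => hq.nd (by rw [h]; exact dvd_zero _)
  have hA0 : A ≠ 0 := left_ne_zero_of_mul (left_ne_zero_of_mul hN)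
  have hB0 : B ≠ 0 := right_ne_zero_of_mul (left_ne_zero_of_mul hN)
  have hC0 : A - B ≠ 0 := right_ne_zero_of_mul hN
  have dA : ¬ (q : ℤ) ∣ A := fun h => hq.nd ((h.mul_right _).mul_right _)
  have dB : ¬ (q : ℤ) ∣ B := fun h => hq.nd ((h.mul_left _).mul_right _)
  have dC : ¬ (q : ℤ) ∣ A - B := fun h => hq.nd (h.mul_left _)
  obtain ⟨D, hD⟩ : ∃ D, D = pT T := ⟨_, rfl⟩
  have dD : ¬ (q : ℤ) ∣ D := by rw [hD]; exact nd_pT hTp hqp hT.nq
  obtain ⟨d, hd⟩ : ∃ d, d = pT (insert q T) := ⟨_, rfl⟩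
  have hdD : d = q * D := by rw [hd, hD]; exact pT_U hT.nq
  have hd0 : d ≠ 0 := by rw [hd]; exact pT_ne hUp
  rw [← hd] at he ⊢
  have nd : ∀ {u v : ℤ}, ¬ (q : ℤ) ∣ u → ¬ (q : ℤ) ∣ v → ¬ (q : ℤ) ∣ u * v := by
    intro u v hu hv h
    exact (hqi.dvd_or_dvd h).elim hu hv
  have e3 : d * A - d * B ≠ 0 := by
    rw [← mul_sub]
    exact mul_ne_zero hd0 hC0
  obtain ⟨v, hv⟩ : ∃ v, v = dv q e.1 := ⟨_, rfl⟩
  obtain ⟨w, hw⟩ : ∃ w, w = dv q e.2 := ⟨_, rfl⟩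
  rw [← hv, ← hw]
  obtain ⟨f, hf, s1, s2⟩ := sel_TT (mul_ne_zero hd0 hA0) (mul_ne_zero hd0 hB0) e3 he v w
  have k1 : dv q f.1 = false := by
    have hh : ∃ (b : Bool) (t : ℤ), b = v ∧
        (if b then (∃ t', t = q * t' ∧ ¬ (q : ℤ) ∣ t') else ¬ (q : ℤ) ∣ t) ∧
        IsSquare (e.1 * t * f.1) := by
      unfold TT at s1
      cases v <;> cases w
      · exact ⟨false, 1, rfl, fun hd => hqi.not_isUnit (isUnit_of_dvd_one hd), s1⟩
      · refine ⟨false, D * D * (A * B), rfl, nd (nd dD dD) (nd dA dB), sq_div hqp ?_⟩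
        have e5 : (q : ℤ) ^ 2 * (e.1 * (D * D * (A * B)) * f.1) =
            e.1 * (d * A * (d * B)) * f.1 := by rw [hdD]; ring
        rw [e5]
        exact s1
      · exact ⟨true, d * A, rfl, ⟨D * A, by rw [hdD]; ring, nd dD dA⟩, s1⟩
      · exact ⟨true, d * B, rfl, ⟨D * B, by rw [hdD]; ring, nd dD dB⟩, s1⟩
    obtain ⟨b, t, hb, ht, hsq⟩ := hh
    rw [dv_three hqp he.sq1 hf.sq1 ht hsq, ← hv, hb, Bool.xor_self]
  have k2 : dv q f.2 = false := by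
    have hh : ∃ (b : Bool) (t : ℤ), b = w ∧
        (if b then (∃ t', t = q * t' ∧ ¬ (q : ℤ) ∣ t') else ¬ (q : ℤ) ∣ t) ∧
        IsSquare (e.2 * t * f.2) := by
      unfold TT at s2
      cases v <;> cases w
      · exact ⟨false, 1, rfl, fun hd => hqi.not_isUnit (isUnit_of_dvd_one hd), s2⟩
      · exact ⟨true, -(d * A), rfl, ⟨-(D * A), by rw [hdD]; ring, fun h =>
          nd dD dA ((dvd_neg).1 h)⟩, s2⟩
      · refine ⟨false, D * D * (A * (A - B)), rfl, nd (nd dD dD) (nd dA dC), sq_div hqp ?_⟩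
        have e5 : (q : ℤ) ^ 2 * (e.2 * (D * D * (A * (A - B))) * f.2) =
            e.2 * (d * A * (d * A - d * B)) * f.2 := by rw [hdD]; ring
        rw [e5]
        exact s2
      · exact ⟨true, d * B - d * A, rfl, ⟨-(D * (A - B)), by rw [hdD]; ring, fun h =>
          nd dD dC ((dvd_neg).1 h)⟩, s2⟩
    obtain ⟨b, t, hb, ht, hsq⟩ := hh
    rw [dv_three hqp he.sq2 hf.sq2 ht hsq, ← hw, hb, Bool.xor_self]
  have z1 : ¬ (q : ℤ) ∣ f.1 := by
    unfold dv at k1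
    exact of_decide_eq_false k1
  have z2 : ¬ (q : ℤ) ∣ f.2 := by
    unfold dv at k2
    exact of_decide_eq_false k2
  rw [hd] at hf
  have h11 := trivU hY h1 hs hq hT hev hf z1 z2
  rw [h11] at s1 s2
  simp only [mul_one] at s1 s2
  exact ⟨s1, s2⟩

/-- **at most four Selmer classes** -/
theorem selU_card (hY : 2 ≤ Y) (h1 : Ty1 Y A B) {s : ℕ → Bool}
    (hs : ∀ e, InS Y A B s e → e = (1, 1)) (hq : GoodQ Y A B s q) (hT : GR Y A B x₀ q T)
    (hev : Even T.card) : {e | InSel (pT (insert q T) * A) (pT (insert q T) * B) e}.Finite ∧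
      {e | InSel (pT (insert q T) * A) (pT (insert q T) * B) e}.ncard ≤ 4 := by
  have hTp := hT.pr
  have hUp := pr_U hq.pr hTp
  have hN : A * B * (A - B) ≠ 0 := fun h => hq.nd (by rw [h]; exact dvd_zero _)
  have hd := pT_ne hUp
  have hA : pT (insert q T) * A ≠ 0 :=
    mul_ne_zero hd (left_ne_zero_of_mul (left_ne_zero_of_mul hN))
  have hB : pT (insert q T) * B ≠ 0 :=
    mul_ne_zero hd (right_ne_zero_of_mul (left_ne_zero_of_mul hN))
  have hAB : pT (insert q T) * A - pT (insert q T) * B ≠ 0 := by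
    rw [← mul_sub]
    exact mul_ne_zero hd (right_ne_zero_of_mul hN)
  have hBA : pT (insert q T) * B - pT (insert q T) * A ≠ 0 := fun h => hAB (by omega)
  have ht : ∀ v w, (TT (pT (insert q T) * A) (pT (insert q T) * B) v w).1 ≠ 0 ∧
      (TT (pT (insert q T) * A) (pT (insert q T) * B) v w).2 ≠ 0 := by
    intro v w
    unfold TT
    cases v <;> cases w
    · exact ⟨one_ne_zero, one_ne_zero⟩
    · exact ⟨mul_ne_zero hA hB, neg_ne_zero.2 hA⟩
    · exact ⟨hA, mul_ne_zero hA hAB⟩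
    · exact ⟨hB, hBA⟩
  have hinj : Set.InjOn (fun e : ℤ × ℤ => (dv q e.1, dv q e.2))
      {e | InSel (pT (insert q T) * A) (pT (insert q T) * B) e} := by
    intro e he f hf hef
    simp only [Prod.mk.injEq] at hef
    obtain ⟨a1, a2⟩ := selU_cls hY h1 hs hq hT hev he
    obtain ⟨b1, b2⟩ := selU_cls hY h1 hs hq hT hev hf
    rw [← hef.1, ← hef.2] at b1 b2
    obtain ⟨t1, t2⟩ := ht (dv q e.1) (dv q e.2)
    have hsq : ∀ {u v t : ℤ}, t ≠ 0 → IsSquare (u * t) → IsSquare (v * t) →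
        IsSquare ((u : ℚ) * v) := by
      intro u v t ht0 h1 h2
      have ht0' : (t : ℚ) ≠ 0 := by exact_mod_cast ht0
      refine sq_mul_trans ht0' ?_ ?_
      · have := h1.map (Int.castRingHom ℚ)
        simpa using this
      · have := h2.map (Int.castRingHom ℚ)
        rw [mul_comm]
        simpa using this
    exact Prod.ext (Pool.Agent.W839.SH.sqf_eq he.sq1 hf.sq1 (hsq t1 a1 b1))
      (Pool.Agent.W839.SH.sqf_eq he.sq2 hf.sq2 (hsq t2 a2 b2))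
  have hfin : {e | InSel (pT (insert q T) * A) (pT (insert q T) * B) e}.Finite :=
    Set.Finite.of_finite_image (Set.toFinite _) hinj
  refine ⟨hfin, ?_⟩
  rw [← hinj.ncard_image]
  refine (Set.ncard_le_ncard (Set.subset_univ _) (Set.toFinite _)).trans ?_
  rw [Set.ncard_univ, Nat.card_eq_fintype_card]
  decide

end

/-- **The twist by a good prime and an even number of additional primes.** -/
theorem tw_U {c : ℤ × ℤ} {e1 e2 e3 : ℤ}
    (hr : ∀ x : ℤ, x ^ 3 + c.1 * x + c.2 = (x - e1) * (x - e2) * (x - e3)) {Y : ℕ} (hY : 2 ≤ Y)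
    (h1 : Ty1 Y (e2 - e1) (e3 - e1)) {s : ℕ → Bool}
    (hs : ∀ e, InS Y (e2 - e1) (e3 - e1) s e → e = (1, 1)) {q : ℕ}
    (hq : GoodQ Y (e2 - e1) (e3 - e1) s q) {x₀ : Fin 3} {T : Finset ℕ}
    (hT : GR Y (e2 - e1) (e3 - e1) x₀ q T) (hev : Even T.card) :
    Tv (Sh ((pT (insert q T)) ^ 2 * c.1) ((pT (insert q T)) ^ 3 * c.2)) := by
  obtain ⟨A, hA⟩ : ∃ A, A = e2 - e1 := ⟨_, rfl⟩
  obtain ⟨B, hB⟩ : ∃ B, B = e3 - e1 := ⟨_, rfl⟩
  rw [← hA, ← hB] at h1 hs hq hT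
  have hTp := hT.pr
  have hqp := hq.pr
  have hUp := pr_U hqp hTp
  have hqi : Prime (q : ℤ) := Nat.prime_iff_prime_int.1 hqp
  have hnd := hq.nd
  have hN : A * B * (A - B) ≠ 0 := fun h => hq.nd (by rw [h]; exact dvd_zero _)
  have hA0 : A ≠ 0 := left_ne_zero_of_mul (left_ne_zero_of_mul hN)
  have hB0 : B ≠ 0 := right_ne_zero_of_mul (left_ne_zero_of_mul hN)
  have hAB0 : A - B ≠ 0 := right_ne_zero_of_mul hN
  have dA : ¬ (q : ℤ) ∣ A := fun h => hnd ((h.mul_right _).mul_right _)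
  have dB : ¬ (q : ℤ) ∣ B := fun h => hnd ((h.mul_left _).mul_right _)
  have hd0 := pT_ne hUp
  have hd : pT (insert q T) = q * pT T := pT_U hT.nq
  have nd' : ¬ (q : ℤ) ∣ pT T := nd_pT hTp hqp hT.nq
  have nd : ∀ {u v : ℤ}, ¬ (q : ℤ) ∣ u → ¬ (q : ℤ) ∣ v → ¬ (q : ℤ) ∣ u * v := by
    intro u v hu hv h
    exact (hqi.dvd_or_dvd h).elim hu hv
  obtain ⟨hfin, hcard⟩ := selU_card hY h1 hs hq hT hev
  obtain ⟨d, hdd⟩ : ∃ d, d = pT (insert q T) := ⟨_, rfl⟩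
  rw [← hdd] at hd0 hd hfin hcard ⊢
  have hr' := roots_tw hr d
  have hR := isR_Sh hr'
  have hsub : SelG (d * e1) (d * e2) (d * e3) ⊆ {e | InSel (d * A) (d * B) e} := by
    rintro e ⟨k1, k2, k3, k4⟩
    have ea : d * A = d * e2 - d * e1 := by rw [hA]; ring
    have eb : d * B = d * e3 - d * e1 := by rw [hB]; ring
    refine ⟨k1, k2, ?_, fun p _ => ?_⟩
    · rw [ea, eb]
      exact loc_of_locC k3
    · rw [ea, eb]
      exact loc_of_locC (k4 p)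
  have n12 : d * e1 ≠ d * e2 := fun h => hA0 (by
    rw [hA]; exact sub_eq_zero.2 (mul_left_cancel₀ hd0 h).symm)
  have n13 : d * e1 ≠ d * e3 := fun h => hB0 (by
    rw [hB]; exact sub_eq_zero.2 (mul_left_cancel₀ hd0 h).symm)
  have n23 : d * e2 ≠ d * e3 := fun h => hAB0 (by
    have := mul_left_cancel₀ hd0 h
    rw [hA, hB, this]
    ring)
  obtain ⟨g1, g2⟩ := sha4 (Sh (d ^ 2 * c.1) (d ^ 3 * c.2)) (d * e1) (d * e2)
    (d * e3) (by exact_mod_cast hR) n12 n13 n23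
    (hfin.subset hsub) ((Set.ncard_le_ncard hsub hfin).trans hcard)
    (by
      have e : ((d * e1 : ℤ) : ℚ) - ((d * e2 : ℤ) : ℚ) =
          ((q * (-(pT T * A)) : ℤ) : ℚ) := by
        rw [hA, hd]; push_cast; ring
      rw [e]
      exact nsq hqp (fun h => nd nd' dA ((dvd_neg).1 h)))
    (by
      have e : ((d * e2 : ℤ) : ℚ) - ((d * e1 : ℤ) : ℚ) =
          ((q * (pT T * A) : ℤ) : ℚ) := by
        rw [hA, hd]; push_cast; ring
      rw [e]
      exact nsq hqp (nd nd' dA))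
    (by
      have e : ((d * e3 : ℤ) : ℚ) - ((d * e1 : ℤ) : ℚ) =
          ((q * (pT T * B) : ℤ) : ℚ) := by
        rw [hB, hd]; push_cast; ring
      rw [e]
      exact nsq hqp (nd nd' dB))
  refine ⟨fin_R (a := d * e1) (b := d * e2) (c := d * e3) (by exact_mod_cast hR)
    n12 n13 n23 g1, fun x hx => ?_⟩
  have h5 : (2 ^ 1) • x = 0 := by
    rw [pow_one, two_nsmul]
    exact hx
  exact congrArg Subtype.val ((sub_tor g2 1).elim ⟨x, h5⟩ ⟨0, smul_zero _⟩)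

end Pool.Agent.K1H97.FU
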