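import Pool.Agent.K1H97.FC.Card

/-!
# The twist by a good prime and an even number of additional primes: the Selmer classes
-/

set_option autoImplicit false

namespace Pool.Agent.K1H97.FU

open Finset
open Pool.Agent.Y676
open Pool.Agent.K1H97.CU
open Pool.Agent.K1H97.FC (dv_mul_unit)
open Pool.Agent.W307.SE (Loc)
open Pool.Agent.W262.RK (dv sgn sg0)

/-- the three differences of the roots -/
def Df (A B : ℤ) : Fin 3 → ℤ := ![A, B, A - B]

/-- the conditions on the additional primes -/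
structure GR (Y : ℕ) (A B : ℤ) (x₀ : Fin 3) (q : ℕ) (T : Finset ℕ) : Prop where
  pr : ∀ r ∈ T, r.Prime
  m8 : ∀ r ∈ T, r % 8 = 1
  sm : ∀ r ∈ T, ∀ p : ℕ, p.Prime → p ≠ 2 → p ≤ Y → jacobiSym (r : ℤ) p = 1
  nd : ∀ r ∈ T, ¬ (r : ℤ) ∣ A * B * (A - B)
  cg : ∀ r ∈ T, ∀ r' ∈ T, r ≡ r' [MOD MM Y A B]
  nq : q ∉ T
  rq : ∀ r ∈ T, jacobiSym (q : ℤ) r = 1
  qr : ∀ r ∈ T, jacobiSym (r : ℤ) q = 1
  sy : ∀ r ∈ T, ∀ r' ∈ T, r' ≠ r → jacobiSym (r' : ℤ) r = 1
  jD : ∀ r ∈ T, ∀ x, jacobiSym (Df A B x) r = if x = x₀ then 1 else -1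

lemma sq_pad {p : ℕ} [hp : Fact p.Prime] (hp2 : p ≠ 2) {n : ℤ} (h : jacobiSym n p = 1) :
    IsSquare ((n : ℤ) : ℚ_[p]) := by
  have hnd : ¬ (p : ℤ) ∣ n := by
    intro hd
    obtain ⟨m, rfl⟩ := hd
    rw [jacobiSym.mul_left] at h
    have h5 : jacobiSym (p : ℤ) p = 0 := by
      have : NeZero p := ⟨hp.out.ne_zero⟩
      rw [jacobiSym.eq_zero_iff_not_coprime]
      simp [hp.out.ne_one]
    rw [h5, zero_mul] at h
    norm_num at h
  have h3 := Pool.Agent.W335.BMX.odd1 p hp2 n 1 hnd (by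
    intro h
    exact hp.out.one_lt.ne' (by exact_mod_cast Int.eq_one_of_dvd_one (by positivity) h))
    (by
      rw [jacobiSym.legendreSym.to_jacobiSym, jacobiSym.legendreSym.to_jacobiSym, h]
      simp)
  rwa [mul_one] at h3

lemma sq_two {n : ℕ} (h : n % 8 = 1) : IsSquare ((n : ℤ) : ℚ_[2]) := by
  have h3 := Pool.Agent.W975.BMX.two1 (n : ℤ) 1 (by omega) (by omega)
  rwa [mul_one] at h3

lemma mul_one_eq {u v : ℤ} (hu : u = 1 ∨ u = -1) (h : u * v = 1) : u = v := by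
  rcases hu with rfl | rfl
  · rw [one_mul] at h
    exact h.symm
  · linarith

lemma dvd_nin {p : ℕ} (hp : p.Prime) {T : Finset ℕ} (hT : ∀ q ∈ T, q.Prime) (h : p ∉ T) :
    ∀ q ∈ T, ¬ (p : ℤ) ∣ (q : ℤ) := by
  intro q hq hd
  exact h (((Nat.prime_dvd_prime_iff_eq hp (hT q hq)).1 (by exact_mod_cast hd)) ▸ hq)

section

variable {Y : ℕ} {A B : ℤ} {x₀ : Fin 3} {q : ℕ} {T : Finset ℕ}

lemma GR.jA (hT : GR Y A B x₀ q T) : ∀ r ∈ T, jacobiSym A r = if 0 = x₀ then 1 else -1 :=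
  fun r hr => hT.jD r hr 0

lemma GR.jB (hT : GR Y A B x₀ q T) : ∀ r ∈ T, jacobiSym B r = if 1 = x₀ then 1 else -1 :=
  fun r hr => hT.jD r hr 1

lemma GR.jC (hT : GR Y A B x₀ q T) : ∀ r ∈ T, jacobiSym (A - B) r = if 2 = x₀ then 1 else -1 :=
  fun r hr => hT.jD r hr 2

lemma pr_U (hq : q.Prime) (hT : ∀ r ∈ T, r.Prime) : ∀ r ∈ insert q T, r.Prime := by
  intro r hr
  rw [mem_insert] at hr
  rcases hr with rfl | hr
  · exact hq
  · exact hT r hr

lemma pT_U (h : q ∉ T) : pT (insert q T) = q * pT T := by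
  unfold pT
  rw [prod_insert h]
  push_cast
  rfl

/-- the symbol of the additional primes at a bad prime -/
lemma GR.kap (hT : GR Y A B x₀ q T) {p : ℕ} (hp : p.Prime) (hN : (p : ℤ) ∣ A * B * (A - B)) :
    ∃ κ : ℤ, (κ = 1 ∨ κ = -1) ∧ ∀ r ∈ T, jacobiSym (r : ℤ) p = κ := by
  rcases T.eq_empty_or_nonempty with rfl | ⟨r₀, h₀⟩
  · exact ⟨1, Or.inl rfl, fun r hr => absurd hr (notMem_empty r)⟩
  · refine ⟨jacobiSym (r₀ : ℤ) p, jac_pm hp ?_, fun r hr => ?_⟩
    · intro hd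
      have h1 := (Nat.prime_dvd_prime_iff_eq hp (hT.pr r₀ h₀)).1 (by exact_mod_cast hd)
      exact hT.nd r₀ h₀ (h1 ▸ hN)
    · have hd : p ∣ MM Y A B := by
        unfold MM
        exact (Int.natCast_dvd.1 hN).mul_left _
      have h1 : (r : ℤ) % (p : ℤ) = (r₀ : ℤ) % (p : ℤ) := by
        exact_mod_cast (hT.cg r hr r₀ h₀).of_dvd hd
      rw [jacobiSym.mod_left, h1, ← jacobiSym.mod_left]

lemma GR.sqs (hT : GR Y A B x₀ q T) (p : ℕ) [hp : Fact p.Prime] (hpY : p ≤ Y) :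
    ∀ r ∈ T, IsSquare ((r : ℤ) : ℚ_[p]) := by
  intro r hr
  by_cases hp2 : p = 2
  · subst hp2
    exact sq_two (hT.m8 r hr)
  · exact sq_pad hp2 (hT.sm r hr p hp.out hp2 hpY)

/-- the parts prime to the twist are supported at the bad primes -/
lemma supp {d : ℤ} {f : ℤ × ℤ} (hf : InSel (d * A) (d * B) f) {p : ℕ} [hp : Fact p.Prime]
    (hY : 2 ≤ Y) (hYp : Y < p) (hd : ¬ (p : ℤ) ∣ d) (hN : ¬ (p : ℤ) ∣ A * B * (A - B)) :
    ¬ (p : ℤ) ∣ f.1 ∧ ¬ (p : ℤ) ∣ f.2 := by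
  have hpi : Prime (p : ℤ) := Nat.prime_iff_prime_int.1 hp.out
  refine goodp p (d * A) (d * B) f.1 f.2 ?_ hf.sq1 hf.sq2 (hf.lo p)
  intro h
  have e5 : 2 * (d * A) * (d * B) * (d * A - d * B) = (2 * d ^ 3) * (A * B * (A - B)) := by ring
  rw [e5] at h
  rcases hpi.dvd_or_dvd h with h | h
  · rcases hpi.dvd_or_dvd h with h | h
    · have h6 : p ∣ 2 := by exact_mod_cast h
      have := Nat.le_of_dvd (by norm_num) h6
      omega
    · exact hd (hpi.dvd_of_dvd_pow h)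
  · exact hN h

/-- **the classes with an even number of the additional primes** -/
theorem core (hY : 2 ≤ Y) (h1 : Ty1 Y A B) {s : ℕ → Bool}
    (hs : ∀ e, InS Y A B s e → e = (1, 1)) (hq : GoodQ Y A B s q) (hT : GR Y A B x₀ q T)
    (hev : Even T.card) {f : ℤ × ℤ}
    (hf : InSel (pT (insert q T) * A) (pT (insert q T) * B) f) {T1 T2 : Finset ℕ}
    (sub1 : T1 ⊆ T) (sub2 : T2 ⊆ T) {g1 g2 : ℤ} (e1 : f.1 = pT T1 * g1) (e2 : f.2 = pT T2 * g2)
    (sq1 : Squarefree g1) (sq2 : Squarefree g2) (n1 : ∀ r ∈ insert q T, ¬ (r : ℤ) ∣ g1)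
    (n2 : ∀ r ∈ insert q T, ¬ (r : ℤ) ∣ g2) (ev1 : Even T1.card) (ev2 : Even T2.card) :
    g1 = 1 ∧ g2 = 1 := by
  have hTp := hT.pr
  have hUp := pr_U hq.pr hTp
  have hf1 := hf.sq1.ne_zero
  have hf2 := hf.sq2.ne_zero
  obtain ⟨U, hU⟩ : ∃ U, U = insert q T := ⟨_, rfl⟩
  have hUe : pT U = q * pT T := by rw [hU]; exact pT_U hT.nq
  rw [← hU] at hf n1 n2 hUp
  have key : (g1, g2) = ((1 : ℤ), (1 : ℤ)) := by
    apply hs
    refine ⟨sq1, sq2, ?_, ?_, ?_, ?_⟩
    · have hpos : (0 : ℝ) < (pT U : ℝ) := by exact_mod_cast pT_pos hUp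
      have hsqr : ∀ S ⊆ T, IsSquare ((pT S : ℤ) : ℝ) := by
        intro S hS
        have : (0 : ℝ) < (pT S : ℝ) := by exact_mod_cast pT_pos fun q hq => hTp q (hS hq)
        exact ⟨Real.sqrt (pT S), (Real.mul_self_sqrt this.le).symm⟩
      have h := loc_scale (r := Real.sqrt (pT U)) (Real.sqrt_pos.2 hpos).ne'
        (by rw [Real.sq_sqrt hpos.le]) hf.re
      exact loc_cls' (by exact_mod_cast hf1) (by exact_mod_cast hf2)
        (cls_F e1 (hsqr T1 sub1)) (cls_F e2 (hsqr T2 sub2)) h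
    · intro p hp hpY
      have hsqr : ∀ S ⊆ T, IsSquare ((pT S : ℤ) : ℚ_[p]) := fun S hS =>
        isSquare_pT S fun q hq => hT.sqs p hpY q (hS hq)
      have hsqU : IsSquare ((pT U : ℤ) : ℚ_[p]) := by
        rw [hUe, Int.cast_mul]
        exact (goodq_sq hq p hpY).mul (hsqr T (Subset.refl _))
      obtain ⟨r, hr⟩ := hsqU
      have hr0 : r ≠ 0 := by
        rintro rfl
        rw [mul_zero] at hr
        exact pT_ne hUp (by exact_mod_cast hr)
      have h := loc_scale hr0 (by rw [hr, pow_two]) (hf.lo p)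
      exact loc_cls' (by exact_mod_cast hf1) (by exact_mod_cast hf2)
        (cls_F e1 (hsqr T1 sub1)) (cls_F e2 (hsqr T2 sub2)) h
    · intro p hp hYp hN
      have : Fact p.Prime := ⟨hp⟩
      by_cases hpU : p ∈ U
      · exact ⟨n1 p hpU, n2 p hpU⟩
      · have hg := supp hf hY hYp (nd_pT hUp hp hpU) hN
        refine ⟨fun h => hg.1 ?_, fun h => hg.2 ?_⟩
        · rw [e1]
          exact h.mul_left _
        · rw [e2]
          exact h.mul_left _
    · intro p hp hYp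
      have : Fact p.Prime := ⟨hp⟩
      by_cases hN : (p : ℤ) ∣ A * B * (A - B)
      · have hpT : p ∉ T := fun h => hT.nd p h hN
        have hpq : p ≠ q := fun h => hq.nd (h ▸ hN)
        have hpU : p ∉ U := by
          rw [hU, mem_insert]
          exact fun h => h.elim hpq hpT
        have hu := uAB_nd (h1 p hp hYp)
        obtain ⟨κ, hk1, hk⟩ := hT.kap hp hN
        have hsQ : sQ A B (pT U) p = s p := by
          rw [← hq.sg p hp hYp hN, sQ_eq, sQ_eq, hUe]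
          unfold sg0
          rw [jacobiSym.mul_left, jacobiSym.mul_left, jacobiSym.mul_left, jac_prod T p _ hk,
            pm_even hk1 hev, mul_one]
        have hL := lc_of_loc (by omega) (nd_pT hUp hp hpU) (h1 p hp hYp) hf.sq1 hf.sq2 (hf.lo p)
        have a1 := sgn_mul (g := g1) hp (nd_pT (fun q hq => hTp q (sub1 hq)) hp
          (fun h => hpT (sub1 h))) (by
            rw [jac_prod T1 p _ fun q hq => hk q (sub1 hq), pm_even hk1 ev1])
        have a2 := sgn_mul (g := g2) hp (nd_pT (fun q hq => hTp q (sub2 hq)) hp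
          (fun h => hpT (sub2 h))) (by
            rw [jac_prod T2 p _ fun q hq => hk q (sub2 hq), pm_even hk1 ev2])
        rw [← e1] at a1
        rw [← e2] at a2
        unfold Lc at hL ⊢
        rw [a1.1, a1.2, a2.1, a2.2, hsQ] at hL
        exact hL
      · exact Pool.Agent.K1H97.FC.lc_triv hN
  rw [Prod.mk.injEq] at key
  exact key

/-- squarefree integers supported at the bad primes -/
lemma dvd_MM {g : ℤ} (hg : Squarefree g)
    (h : ∀ p : ℕ, p.Prime → (p : ℤ) ∣ g → p ≤ Y ∨ (p : ℤ) ∣ A * B * (A - B)) :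
    4 * g.natAbs ∣ MM Y A B := by
  have hg' : Squarefree g.natAbs := Int.squarefree_natAbs.2 hg
  have h1 : g.natAbs ∣ Y.factorial * (A * B * (A - B)).natAbs := by
    rw [← Nat.prod_primeFactors_of_squarefree hg']
    refine sub_dvd (fun p hp => Nat.prime_of_mem_primeFactors hp) fun p hp => ?_
    have hpp := Nat.prime_of_mem_primeFactors hp
    have hpd := Nat.dvd_of_mem_primeFactors hp
    rcases h p hpp (Int.natCast_dvd.2 hpd) with h2 | h2
    · exact ((hpp.dvd_factorial).2 h2).mul_right _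
    · exact (Int.natCast_dvd.1 h2).mul_left _
  unfold MM
  obtain ⟨m, hm⟩ := h1
  exact ⟨2 * m, by rw [mul_assoc 8, hm]; ring⟩

/-- the ramification at the additional primes is determined by the other part of the class -/
lemma local_r (hT : GR Y A B x₀ q T) {f : ℤ × ℤ}
    (hf : InSel (pT (insert q T) * A) (pT (insert q T) * B) f) {T1 T2 : Finset ℕ}
    (sub1 : T1 ⊆ T) (sub2 : T2 ⊆ T) {g1 g2 : ℤ} (e1 : f.1 = pT T1 * g1) (e2 : f.2 = pT T2 * g2)
    (n1 : ∀ r ∈ insert q T, ¬ (r : ℤ) ∣ g1)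
    (n2 : ∀ r ∈ insert q T, ¬ (r : ℤ) ∣ g2) (hqp : q.Prime) {r : ℕ} (hr : r ∈ T) :
    (jacobiSym g1 r, jacobiSym g2 r) =
      (if r ∈ T1 then (if r ∈ T2 then jacobiSym B r else jacobiSym A r) else
        (if r ∈ T2 then jacobiSym A r * jacobiSym B r else 1),
       if r ∈ T1 then (if r ∈ T2 then jacobiSym (A - B) r else
        jacobiSym A r * jacobiSym (A - B) r) else (if r ∈ T2 then jacobiSym A r else 1)) := by
  have hTp := hT.pr
  have hrp := hTp r hr
  have hrF : Fact r.Prime := ⟨hrp⟩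
  have hri : Prime (r : ℤ) := Nat.prime_iff_prime_int.1 hrp
  have hUp := pr_U hqp hTp
  have hrU : r ∈ insert q T := mem_insert_of_mem hr
  have hrq : r ≠ q := fun h => hT.nq (h ▸ hr)
  have hm8 := hT.m8 r hr
  have hr2 : r ≠ 2 := by omega
  have hnd := hT.nd r hr
  have dA : ¬ (r : ℤ) ∣ A := fun h => hnd ((h.mul_right _).mul_right _)
  have dB : ¬ (r : ℤ) ∣ B := fun h => hnd ((h.mul_left _).mul_right _)
  have dAB : ¬ (r : ℤ) ∣ A - B := fun h => hnd (h.mul_left _)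
  have dBA : ¬ (r : ℤ) ∣ B - A := fun h => dAB (by
    have : A - B = -(B - A) := by ring
    rw [this]
    exact (dvd_neg).2 h)
  have nd : ∀ {u v : ℤ}, ¬ (r : ℤ) ∣ u → ¬ (r : ℤ) ∣ v → ¬ (r : ℤ) ∣ u * v := by
    intro u v hu hv h
    exact (hri.dvd_or_dvd h).elim hu hv
  obtain ⟨U, hU⟩ : ∃ U, U = insert q T := ⟨_, rfl⟩
  rw [← hU] at hf n1 n2 hUp hrU
  obtain ⟨d', hd'⟩ : ∃ d', d' = pT (U.erase r) := ⟨_, rfl⟩
  have hd : pT U = r * d' := by rw [hd']; exact pT_erase hrU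
  have nd' : ¬ (r : ℤ) ∣ d' := by
    rw [hd']
    exact nd_pT (fun r hr => hUp r (mem_of_mem_erase hr)) hrp (notMem_erase r U)
  have hJ : ∀ S ⊆ U, jacobiSym (pT (S.erase r)) r = 1 := fun S hS => by
    rw [jac_prod _ r 1 fun r' hr' => ?_, one_pow]
    have h1 := hS (mem_of_mem_erase hr')
    rw [hU, mem_insert] at h1
    rcases h1 with rfl | h1
    · exact hT.rq r hr
    · exact hT.sy r hr r' h1 (ne_of_mem_erase hr')
  have subU : T ⊆ U := by rw [hU]; exact subset_insert _ _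
  have Jd : jacobiSym d' r = 1 := by
    rw [hd']
    exact hJ U (Subset.refl _)
  have Jout : ∀ S ⊆ T, r ∉ S → jacobiSym (pT S) r = 1 := by
    intro S hS hqS
    have h3 := hJ S (hS.trans subU)
    rwa [erase_eq_of_notMem hqS] at h3
  have nin : ∀ S ⊆ T, ¬ (r : ℤ) ∣ pT (S.erase r) := fun S hS =>
    nd_pT (fun r' hr' => hTp r' (hS (mem_of_mem_erase hr'))) hrp (notMem_erase r S)
  have nout : ∀ S ⊆ T, r ∉ S → ¬ (r : ℤ) ∣ pT S := fun S hS hqS =>
    nd_pT (fun r' hr' => hTp r' (hS hr')) hrp hqS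
  have J1 : jacobiSym (-1) r = 1 := by
    rw [jacobiSym.at_neg_one (hrp.odd_of_ne_two hr2), ZMod.χ₄_nat_one_mod_four (by omega)]
  have JBA : jacobiSym (B - A) r = jacobiSym (A - B) r := by
    have : B - A = -1 * (A - B) := by ring
    rw [this, jacobiSym.mul_left, J1, one_mul]
  have ng1 := n1 r hrU
  have ng2 := n2 r hrU
  have hlo := hf.lo r
  have p1 := jac_pm hrp ng1
  have p2 := jac_pm hrp ng2
  by_cases i1 : r ∈ T1 <;> by_cases i2 : r ∈ T2
  · have k := add_cls hr2 dA dB dAB hd nd' hlo true true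
      (m1 := pT (T1.erase r) * g1 * d' * B) (m2 := pT (T2.erase r) * g2 * d' * (B - A))
      (by
        change f.1 * (pT U * B) = _
        rw [e1, pT_erase i1, hd]
        ring)
      (by
        change f.2 * (pT U * B - pT U * A) = _
        rw [e2, pT_erase i2, hd]
        ring)
      (nd (nd (nd (nin T1 sub1) ng1) nd') dB) (nd (nd (nd (nin T2 sub2) ng2) nd') dBA)
    simp only [jacobiSym.mul_left, Jd, hJ T1 (sub1.trans subU), hJ T2 (sub2.trans subU), JBA,
      mul_one, one_mul] at k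
    rw [if_pos i1, if_pos i2, if_pos i1, if_pos i2]
    exact Prod.ext (mul_one_eq p1 k.1) (mul_one_eq p2 k.2)
  · have k := add_cls hr2 dA dB dAB hd nd' hlo true false
      (m1 := pT (T1.erase r) * g1 * d' * A) (m2 := f.2 * (d' * d') * (A * (A - B)))
      (by
        change f.1 * (pT U * A) = _
        rw [e1, pT_erase i1, hd]
        ring)
      (by
        change f.2 * (pT U * A * (pT U * A - pT U * B)) = _
        rw [hd]
        ring)
      (nd (nd (nd (nin T1 sub1) ng1) nd') dA)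
      (nd (nd (by rw [e2]; exact nd (nout T2 sub2 i2) ng2) (nd nd' nd')) (nd dA dAB))
    rw [e2] at k
    simp only [jacobiSym.mul_left, Jd, hJ T1 (sub1.trans subU), Jout T2 sub2 i2,
      mul_one, one_mul] at k
    rw [if_pos i1, if_neg i2, if_pos i1, if_neg i2]
    exact Prod.ext (mul_one_eq p1 k.1) (mul_one_eq p2 k.2)
  · have k := add_cls hr2 dA dB dAB hd nd' hlo false true
      (m1 := f.1 * (d' * d') * (A * B)) (m2 := -1 * (pT (T2.erase r) * g2 * d' * A))
      (by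
        change f.1 * (pT U * A * (pT U * B)) = _
        rw [hd]
        ring)
      (by
        change f.2 * (-(pT U * A)) = _
        rw [e2, pT_erase i2, hd]
        ring)
      (nd (nd (by rw [e1]; exact nd (nout T1 sub1 i1) ng1) (nd nd' nd')) (nd dA dB))
      (by
        have h5 := nd (nd (nd (nin T2 sub2) ng2) nd') dA
        intro h6
        apply h5
        rw [neg_one_mul] at h6
        exact (dvd_neg).1 h6)
    rw [e1] at k
    simp only [jacobiSym.mul_left, Jd, hJ T2 (sub2.trans subU), Jout T1 sub1 i1, J1,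
      mul_one, one_mul] at k
    rw [if_neg i1, if_pos i2, if_neg i1, if_pos i2]
    exact Prod.ext (mul_one_eq p1 k.1) (mul_one_eq p2 k.2)
  · have k := add_unr hr2 dA dB hd nd' (by rw [e1]; exact nd (nout T1 sub1 i1) ng1)
      (by rw [e2]; exact nd (nout T2 sub2 i2) ng2) hlo
    rw [e1, e2, jacobiSym.mul_left, jacobiSym.mul_left, Jout T1 sub1 i1, Jout T2 sub2 i2,
      one_mul, one_mul] at k
    rw [if_neg i1, if_neg i2, if_neg i1, if_neg i2, k.1, k.2]

end

end Pool.Agent.K1H97.FU
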