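import Pool.Agent.K1H97.FU.Core
import Pool.Agent.K1H97.FC.Dir
import Pool.Agent.Y676.Tup

/-!
# The infinite set of the additional primes, for a tuple of curves
-/

set_option autoImplicit false

namespace Pool.Agent.K1H97.FU

open Finset
open Pool.Agent.Y676
open Pool.Agent.K1H97.CU
open Pool.Agent.K1H97.FC (jac_all jac_int)
open Pool.Agent.W262.RK (dv sgn sg0)

variable {k : ℕ}

/-- typical tuples, with large primes dividing the differences of the roots -/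
structure TY (Y : ℕ) (t : Fin k → ℤ × ℤ) (m : Fin k → Fin 3 → ℕ) : Prop where
  hY : 2 ≤ Y
  ty : ∀ i, Ty1 Y (t i).1 (t i).2
  nz : ∀ i, (t i).1 * (t i).2 * ((t i).1 - (t i).2) ≠ 0
  crs : ∀ i i', i ≠ i' → ¬ Crs Y (t i) (t i')
  mp : ∀ i x, (m i x).Prime
  mY : ∀ i x, Y < m i x
  md : ∀ i x, (m i x : ℤ) ∣ Df (t i).1 (t i).2 x

lemma Df_dvd (A B : ℤ) (x : Fin 3) : Df A B x ∣ A * B * (A - B) := by
  fin_cases x
  · exact ⟨B * (A - B), by show _ = A * _; ring⟩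
  · exact ⟨A * (A - B), by show _ = B * _; ring⟩
  · exact ⟨A * B, by show _ = (A - B) * _; ring⟩

lemma Df_two {Y : ℕ} {A B : ℤ} (h : Ty1 Y A B) {p : ℕ} (hp : p.Prime) (hYp : Y < p)
    {x y : Fin 3} (hxy : x ≠ y) (h1 : (p : ℤ) ∣ Df A B x) (h2 : (p : ℤ) ∣ Df A B y) : False := by
  have two : ∀ {u v : ℤ}, (p : ℤ) ∣ u → (p : ℤ) ∣ v → (p : ℤ) ^ 2 ∣ u * v := by
    intro u v hu hv
    rw [pow_two]
    exact mul_dvd_mul hu hv
  have h3 := two h1 h2
  refine h p hp hYp (h3.trans ?_)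
  fin_cases x <;> fin_cases y
  · exact absurd rfl hxy
  · exact ⟨A - B, by show _ = A * B * _; ring⟩
  · exact ⟨B, by show _ = A * (A - B) * _; ring⟩
  · exact ⟨A - B, by show _ = B * A * _; ring⟩
  · exact absurd rfl hxy
  · exact ⟨A, by show _ = B * (A - B) * _; ring⟩
  · exact ⟨B, by show _ = (A - B) * A * _; ring⟩
  · exact ⟨A, by show _ = (A - B) * B * _; ring⟩
  · exact absurd rfl hxy

lemma Df_ne {A B : ℤ} (h : A * B * (A - B) ≠ 0) (x : Fin 3) : Df A B x ≠ 0 := by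
  intro h0
  obtain ⟨c, hc⟩ := Df_dvd A B x
  rw [h0, zero_mul] at hc
  exact h hc

/-- **Infinite sets of additional primes.** -/
theorem exists_R {Y : ℕ} {t : Fin k → ℤ × ℤ} {m : Fin k → Fin 3 → ℕ} (h : TY Y t m)
    {s : Fin k → ℕ → Bool} {q : ℕ} (hqp : q.Prime) (hqY : Y < q)
    (hq : ∀ i, GoodQ Y (t i).1 (t i).2 (s i) q) (x₀ : Fin k → Fin 3) :
    ∃ 𝒬 : Set ℕ, 𝒬.Infinite ∧ (∀ r ∈ 𝒬, r.Prime) ∧ q ∉ 𝒬 ∧
      ∀ T : Finset ℕ, (T : Set ℕ) ⊆ 𝒬 → ∀ i, GR Y (t i).1 (t i).2 (x₀ i) q T := by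
  classical
  have hY2 := h.hY
  have hq2 : q ≠ 2 := by omega
  obtain ⟨N, hN⟩ : ∃ N : ℕ, N = ∏ i, Nn (t i) := ⟨_, rfl⟩
  have hNi : ∀ i, Nn (t i) ≠ 0 := fun i => Int.natAbs_ne_zero.2 (h.nz i)
  have hN0 : N ≠ 0 := by rw [hN]; exact prod_ne_zero_iff.2 fun i _ => hNi i
  have hNd : ∀ i, Nn (t i) ∣ N := fun i => by rw [hN]; exact dvd_prod_of_mem _ (mem_univ i)
  have hiN : ∀ {p : ℕ} (i : Fin k), (p : ℤ) ∣ (t i).1 * (t i).2 * ((t i).1 - (t i).2) →
      p ∣ N := fun i hd => (Int.natCast_dvd.1 hd).trans (hNd i)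
  -- the special primes
  obtain ⟨L, hL⟩ : ∃ L : Finset ℕ, L = ((univ : Finset (Fin k × Fin 3)).filter
      (fun a => a.2 ≠ x₀ a.1)).image (fun a => m a.1 a.2) := ⟨_, rfl⟩
  have hLm : ∀ p, p ∈ L ↔ ∃ i x, x ≠ x₀ i ∧ m i x = p := by
    intro p
    rw [hL, mem_image]
    constructor
    · rintro ⟨⟨i, x⟩, h1, h2⟩
      exact ⟨i, x, (mem_filter.1 h1).2, h2⟩
    · rintro ⟨i, x, h1, h2⟩
      exact ⟨(i, x), mem_filter.2 ⟨mem_univ _, h1⟩, h2⟩
  have hLp : ∀ p ∈ L, p.Prime ∧ Y < p ∧ p ∣ N := by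
    intro p hp
    obtain ⟨i, x, -, rfl⟩ := (hLm p).1 hp
    exact ⟨h.mp i x, h.mY i x, hiN i ((h.md i x).trans (Df_dvd _ _ _))⟩
  -- a special prime dividing a difference
  have hLD : ∀ p ∈ L, ∀ i x, (p : ℤ) ∣ Df (t i).1 (t i).2 x → x ≠ x₀ i ∧ m i x = p := by
    intro p hp i x hd
    obtain ⟨i', x', hx', he⟩ := (hLm p).1 hp
    have hd' : (p : ℤ) ∣ Df (t i').1 (t i').2 x' := by rw [← he]; exact h.md i' x'
    by_cases hi : i = i'
    · subst hi
      by_cases hx : x = x'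
      · subst hx
        exact ⟨hx', he⟩
      · exact (Df_two (h.ty i) (hLp p hp).1 (hLp p hp).2.1 hx hd hd').elim
    · refine (h.crs i i' hi ⟨p, (hLp p hp).1, (hLp p hp).2.1, ?_, ?_⟩).elim
      · exact Int.natCast_dvd.1 (hd.trans (Df_dvd _ _ _))
      · exact Int.natCast_dvd.1 (hd'.trans (Df_dvd _ _ _))
  have hqL : q ∉ L := by
    intro hqL
    obtain ⟨i, x, -, he⟩ := (hLm q).1 hqL
    exact (hq i).nd (he ▸ (h.md i x).trans (Df_dvd _ _ _))
  obtain ⟨S, hS⟩ : ∃ S : Finset ℕ, S = insert q (N.primeFactors.filter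
      (fun p => Y < p ∧ p ∉ L)) := ⟨_, rfl⟩
  have hSm : ∀ p ∈ S, p.Prime ∧ Y < p ∧ p ∉ L := by
    intro p hp
    rw [hS, mem_insert, mem_filter] at hp
    rcases hp with rfl | hp
    · exact ⟨hqp, hqY, hqL⟩
    · exact ⟨Nat.prime_of_mem_primeFactors hp.1, hp.2⟩
  obtain ⟨M, hM⟩ : ∃ M : ℕ, M = 8 * Y.factorial := ⟨_, rfl⟩
  have hM0 : 0 < M := by
    rw [hM]
    have := Nat.factorial_pos Y
    positivity
  have hcp : ∀ p : ℕ, p.Prime → Y < p → p.Coprime M := by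
    intro p hp hYp
    rw [hp.coprime_iff_not_dvd, hM]
    intro hd
    rcases (hp.dvd_mul).1 hd with hd | hd
    · have h1 : p ∣ 2 ^ 3 := by exact_mod_cast hd
      have h2 := (Nat.prime_dvd_prime_iff_eq hp Nat.prime_two).1 (hp.dvd_of_dvd_pow h1)
      omega
    · have := (hp.dvd_factorial).1 hd
      omega
  obtain ⟨q₁, -, q1p, q1m, q1s⟩ := exists_prime hM0 (Nat.coprime_one_left M)
    (x := 1) (Or.inl rfl) S (fun r hr => by
      obtain ⟨a, b, c⟩ := hSm r hr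
      exact ⟨a, by omega, hcp r a b⟩) 0
  have q1b : q₁ ∉ S := fun hq => by
    have h5 := q1s q₁ hq
    have h6 : jacobiSym (q₁ : ℤ) q₁ = 0 := by
      have : NeZero q₁ := ⟨q1p.ne_zero⟩
      rw [jacobiSym.eq_zero_iff_not_coprime]
      simp [q1p.ne_one]
    rw [h6] at h5
    norm_num at h5
  obtain ⟨M', hM'⟩ : ∃ M' : ℕ, M' = M * ∏ p ∈ S, p := ⟨_, rfl⟩
  have hM'0 : 0 < M' := by
    rw [hM']
    exact Nat.mul_pos hM0 (prod_pos fun r hr => (hSm r hr).1.pos)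
  have q1c : q₁.Coprime M' := by
    rw [hM']
    apply Nat.Coprime.mul_right
    · unfold Nat.Coprime
      rw [q1m.gcd_eq, Nat.gcd_one_left]
    · exact Nat.Coprime.prod_right fun r hr => (Nat.coprime_primes q1p (hSm r hr).1).2
        (fun h => q1b (h ▸ hr))
  obtain ⟨r₀, rb, rp, rm, rs⟩ := exists_prime hM'0 q1c (x := -1) (Or.inr rfl) L
    (fun r hr => by
      obtain ⟨a, b, c⟩ := hLp r hr
      refine ⟨a, by omega, ?_⟩
      rw [hM']
      refine Nat.Coprime.mul_right (hcp r a b) ?_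
      exact Nat.Coprime.prod_right fun p hp => (Nat.coprime_primes a (hSm p hp).1).2
        (fun h => (hSm p hp).2.2 (h ▸ hr))) (M * N + q)
  have rM : r₀ ≡ 1 [MOD M] := (rm.of_dvd (by rw [hM']; exact dvd_mul_right _ _)).trans q1m
  have r8 : r₀ % 8 = 1 := by
    have : r₀ ≡ 1 [MOD 8] := rM.of_dvd (by rw [hM]; exact dvd_mul_right _ _)
    exact this
  have jmod : ∀ {p a b : ℕ}, a ≡ b [MOD p] → jacobiSym (a : ℤ) p = jacobiSym (b : ℤ) p := by
    intro p a b hab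
    have h1 : (a : ℤ) % (p : ℤ) = (b : ℤ) % (p : ℤ) := by exact_mod_cast hab
    rw [jacobiSym.mod_left, h1, ← jacobiSym.mod_left]
  -- the symbols
  have sy1 : ∀ p : ℕ, p.Prime → p ≠ 2 → p ≤ Y → jacobiSym (r₀ : ℤ) p = 1 := by
    intro p hp _ hpY
    have : r₀ ≡ 1 [MOD p] := rM.of_dvd (by
      rw [hM]
      exact ((hp.dvd_factorial).2 hpY).mul_left _)
    rw [jmod this, Nat.cast_one, jacobiSym.one_left]
  have sy2 : ∀ p ∈ S, jacobiSym (r₀ : ℤ) p = 1 := by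
    intro p hp
    have : r₀ ≡ q₁ [MOD p] := rm.of_dvd (by
      rw [hM']
      exact (dvd_prod_of_mem _ hp).mul_left _)
    rw [jmod this]
    exact q1s p hp
  have syq : jacobiSym (r₀ : ℤ) q = 1 := sy2 q (by rw [hS]; exact mem_insert_self _ _)
  have sy3 : ∀ p : ℕ, p.Prime → p ≠ 2 → p ∣ N → p ∉ L → jacobiSym (r₀ : ℤ) p = 1 := by
    intro p hp hp2 hpN hpl
    by_cases hpY : p ≤ Y
    · exact sy1 p hp hp2 hpY
    · refine sy2 p ?_
      rw [hS, mem_insert, mem_filter, Nat.mem_primeFactors]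
      exact Or.inr ⟨⟨hp, hpN, hN0⟩, by omega, hpl⟩
  have r₀D : ∀ i x, jacobiSym (Df (t i).1 (t i).2 x) r₀ = if x = x₀ i then 1 else -1 := by
    intro i x
    have hD0 := Df_ne (h.nz i) x
    by_cases hx : x = x₀ i
    · rw [if_pos hx]
      refine jac_int r8 hD0 fun p hp hp2 hd => sy3 p hp hp2
        (hiN i (hd.trans (Df_dvd _ _ _))) fun hpL => (hLD p hpL i x hd).1 hx
    · rw [if_neg hx]
      obtain ⟨D', hD'⟩ := h.md i x
      have hl := h.mp i x
      have hlY := h.mY i x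
      have hlL : m i x ∈ L := (hLm _).2 ⟨i, x, hx, rfl⟩
      have hD'0 : D' ≠ 0 := by
        rintro rfl
        rw [mul_zero] at hD'
        exact hD0 hD'
      have hlD : ¬ (m i x : ℤ) ∣ D' := by
        rintro ⟨u, rfl⟩
        refine h.ty i (m i x) hl hlY (Dvd.dvd.trans ?_ (Df_dvd (t i).1 (t i).2 x))
        rw [hD']
        exact ⟨u, by ring⟩
      have h1 : jacobiSym (m i x : ℤ) r₀ = -1 := by
        rw [← jacobiSym.quadratic_reciprocity_one_mod_four (a := r₀) (b := m i x) (by omega)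
          (hl.odd_of_ne_two (by omega))]
        exact rs _ hlL
      have h2 : jacobiSym D' r₀ = 1 := by
        refine jac_int r8 hD'0 fun p hp hp2 hd => ?_
        have hd' : (p : ℤ) ∣ Df (t i).1 (t i).2 x := by rw [hD']; exact hd.mul_left _
        refine sy3 p hp hp2 (hiN i (hd'.trans (Df_dvd _ _ _))) fun hpL => ?_
        have h5 := (hLD p hpL i x hd').2
        exact hlD (h5 ▸ hd)
      rw [hD', jacobiSym.mul_left, h1, h2, mul_one]
  -- the infinite set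
  obtain ⟨W, hW⟩ : ∃ W : ℕ, W = M * N := ⟨_, rfl⟩
  have hW0 : 0 < W := by rw [hW]; exact Nat.mul_pos hM0 (Nat.pos_of_ne_zero hN0)
  have hcop : r₀.Coprime W := by
    rw [rp.coprime_iff_not_dvd]
    intro hd
    have := Nat.le_of_dvd hW0 hd
    omega
  have hMW : ∀ i, MM Y (t i).1 (t i).2 ∣ W := fun i => by
    rw [hW, hM]
    exact Nat.mul_dvd_mul_left _ (hNd i)
  have h8W : 8 ∣ W := by rw [hW, hM, mul_assoc]; exact dvd_mul_right _ _
  have hm8 : ∀ {r : ℕ}, r ≡ r₀ [MOD W] → r % 8 = 1 := by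
    intro r hr
    have h1 : r % 8 = r₀ % 8 := hr.of_dvd h8W
    omega
  let R : ℕ → ℕ → Prop := fun q q' => q ≠ q' ∧ jacobiSym (q : ℤ) q' = 1 ∧ jacobiSym (q' : ℤ) q = 1
  have hsymm : Std.Symm R := ⟨fun q q' h => ⟨h.1.symm, h.2.2, h.2.1⟩⟩
  let P : ℕ → Prop := fun r => r.Prime ∧ r ≡ r₀ [MOD W] ∧ W + q < r ∧ jacobiSym (r : ℤ) q = 1
  have hstep : ∀ F : Finset ℕ, (∀ r ∈ F, P r) → ∃ y, P y ∧ ∀ r ∈ F, R r y := by
    intro F hF
    have hcop' : ∀ {r : ℕ}, r ≡ r₀ [MOD W] → r.Coprime W := by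
      intro r hr
      unfold Nat.Coprime
      rw [hr.gcd_eq]
      exact hcop
    have hqW : q.Coprime W := by
      rw [hW]
      refine Nat.Coprime.mul_right (hcp q hqp hqY) ?_
      rw [hN]
      refine Nat.Coprime.prod_right fun i _ => ?_
      rw [hqp.coprime_iff_not_dvd]
      exact fun hd => (hq i).nd (Int.natCast_dvd.2 hd)
    obtain ⟨y, y1, y2, y3, y4⟩ := exists_prime hW0 hcop (x := 1) (Or.inl rfl) (insert q F) (by
      intro r hr
      rw [mem_insert] at hr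
      rcases hr with rfl | hr
      · exact ⟨hqp, hq2, hqW⟩
      · obtain ⟨a1, a2, -, -⟩ := hF r hr
        have := hm8 a2
        exact ⟨a1, by omega, hcop' a2⟩) (W + q + F.sup id)
    have yF : ∀ r ∈ F, r < y := fun r hr => by
      have : r ≤ F.sup id := le_sup (f := id) hr
      omega
    have hy8 := hm8 y3
    refine ⟨y, ⟨y2, y3, by omega, y4 q (mem_insert_self _ _)⟩, fun r hr =>
      ⟨(yF r hr).ne, ?_, y4 r (mem_insert_of_mem hr)⟩⟩
    have := hm8 (hF r hr).2.1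
    rw [jacobiSym.quadratic_reciprocity_one_mod_four (a := r) (b := y) (by omega)
      (Nat.odd_iff.2 (by omega))]
    exact y4 r (mem_insert_of_mem hr)
  obtain ⟨f, hf1, hf2⟩ := exists_seq_of_forall_finset_exists' P R hstep
  have hfi : Function.Injective f := by
    intro a b hab
    by_contra hne
    exact (hf2 hne).1 hab
  have hqR : q ∉ Set.range f := by
    rintro ⟨n, hn⟩
    have := (hf1 n).2.2.1
    omega
  refine ⟨Set.range f, Set.infinite_range_of_injective hfi, ?_, hqR, fun T hT i => ?_⟩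
  · rintro r ⟨n, rfl⟩
    exact (hf1 n).1
  have hmem : ∀ r ∈ T, P r := by
    intro r hr
    obtain ⟨n, rfl⟩ := hT hr
    exact hf1 n
  have hNr : ∀ r ∈ T, ¬ (r : ℤ) ∣ (t i).1 * (t i).2 * ((t i).1 - (t i).2) := by
    intro r hr hd
    have h1 : r ∣ W := by
      rw [hW]
      exact (hiN i hd).mul_left _
    have h2 := Nat.le_of_dvd hW0 h1
    have := (hmem r hr).2.2.1
    omega
  refine ⟨fun r hr => (hmem r hr).1, fun r hr => hm8 (hmem r hr).2.1, ?_, hNr, ?_, ?_, ?_,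
    fun r hr => (hmem r hr).2.2.2, ?_, ?_⟩
  · intro r hr p hp hp2 hpY
    have hd : p ∣ W := by
      rw [hW, hM]
      exact (((hp.dvd_factorial).2 hpY).mul_left _).mul_right _
    rw [jmod ((hmem r hr).2.1.of_dvd hd)]
    exact sy1 p hp hp2 hpY
  · intro r hr r' hr'
    exact ((hmem r hr).2.1.trans (hmem r' hr').2.1.symm).of_dvd (hMW i)
  · intro hqT
    exact hqR (hT hqT)
  · intro r hr
    have := hm8 (hmem r hr).2.1
    rw [← jacobiSym.quadratic_reciprocity_one_mod_four (a := r) (b := q) (by omega)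
      (hqp.odd_of_ne_two hq2)]
    exact (hmem r hr).2.2.2
  · intro r hr r' hr' hne
    obtain ⟨n, rfl⟩ := hT hr
    obtain ⟨n', rfl⟩ := hT hr'
    have hnn : n' ≠ n := fun h => hne (by rw [h])
    exact (hf2 hnn).2.1
  · intro r hr x
    rw [← r₀D i x]
    have h8r := hm8 (hmem r hr).2.1
    refine jac_mod (M := W) ?_ (Nat.odd_iff.2 (by omega)) (Nat.odd_iff.2 (by omega))
      (hmem r hr).2.1
    refine Dvd.dvd.trans ?_ (hMW i)
    unfold MM
    obtain ⟨c, hc⟩ := Int.natAbs_dvd_natAbs.2 (Df_dvd (t i).1 (t i).2 x)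
    rw [hc]
    exact ⟨2 * Y.factorial * c, by ring⟩

end Pool.Agent.K1H97.FU
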