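import Pool.Agent.K1H97.FU.Card
import Pool.Agent.Y676.IS.One
import Pool.Agent.Y497.IS.LCB
import Pool.Agent.Y500.IS.LQU
import Pool.Agent.TH841.LS.Coc
import Pool.Agent.TH841.LS.Lot
import Pool.Agent.TH841.LS.Cob
import Pool.Agent.TH841.LS.Ker
import Pool.Agent.TH841.LS.Shl
import Pool.Agent.TH841.LS.Loca
import Pool.Agent.TH841.LS.Locb
import Pool.Agent.TH841.LS.Locd

/-!
# The Tate-Shafarevich groups of the 2-isogenous curves of the twists
-/

set_option autoImplicit false

namespace Pool.Agent.K1H97.FU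

open Finset WeierstrassCurve
open Pool.Agent.Y676
open Pool.Agent.K1H97.CU
open Pool.Agent.TH841.SH.D (Sha rk)
open Pool.Agent.TH841.LS (WI LocI dd SHL LOCA LOCC LOCD NR shl_of)
open Pool.Agent.TH841.NO (SQ fo)
open Pool.Agent.TH841.PT (EQ)
open Pool.Agent.Y676.IS (tri tri_ne sel_tri sel4_EQ one le_of_inj)
open Pool.Agent.W307.SE (Sel)

theorem tshl : SHL := shl_of Pool.Agent.TH841.LS.COCf.coc_all Pool.Agent.TH841.LS.LOTf.lot
  Pool.Agent.TH841.LS.COBf.cob_pt Pool.Agent.TH841.LS.KERf.ker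

/-- the integers `dd T ε` are the products over the subsets of `T` -/
lemma dd_eq {T : Finset ℕ} (ε : T → ZMod 2) (h0 : ∑ p, ε p = 0) :
    ∃ S ⊆ T, dd T ε = pT S ∧ Even S.card := by
  classical
  refine ⟨(univ.filter (fun p : T => ε p = 1)).map (Function.Embedding.subtype _), ?_, ?_, ?_⟩
  · intro p hp
    rw [mem_map] at hp
    obtain ⟨a, -, rfl⟩ := hp
    exact a.2
  · unfold dd pT
    rw [prod_map, ← prod_filter]
    push_cast
    rfl
  · rw [card_map]
    have h1 : ∑ p, ε p = (((univ.filter (fun p : T => ε p = 1)).card : ℕ) : ZMod 2) := by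
      rw [card_filter, Nat.cast_sum]
      refine sum_congr rfl fun p _ => ?_
      have h3 : ∀ x : ZMod 2, x = ((if x = 1 then 1 else 0 : ℕ) : ZMod 2) := by decide
      exact h3 (ε p)
    rw [h1] at h0
    exact (ZMod.natCast_eq_zero_iff_even).1 h0

/-- the sum -/
def sm (T : Finset ℕ) : (T → ZMod 2) →ₗ[ZMod 2] ZMod 2 where
  toFun ε := ∑ p, ε p
  map_add' ε ε' := by
    rw [← sum_add_distrib]
    rfl
  map_smul' c ε := by
    rw [RingHom.id_apply, smul_eq_mul, mul_sum]
    rfl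

lemma fr_sm (T : Finset ℕ) : T.card ≤ Module.finrank (ZMod 2) (LinearMap.ker (sm T)) + 1 := by
  have h1 := LinearMap.finrank_range_add_finrank_ker (sm T)
  rw [Module.finrank_fintype_fun_eq_card, Fintype.card_coe] at h1
  have h2 : Module.finrank (ZMod 2) (LinearMap.range (sm T)) ≤ 1 := by
    have := Submodule.finrank_le (LinearMap.range (sm T))
    rwa [Module.finrank_self] at this
  omega

section

variable {Y : ℕ} {A B : ℤ} {x₀ : Fin 3} {q : ℕ} {T : Finset ℕ}

/-- **the products of an even number of the additional primes are locally trivial classes** -/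
theorem locI_T (hY : 11 ≤ Y) {s : ℕ → Bool} (hq : GoodQ Y A B s q) (hT : GR Y A B x₀ q T)
    {A' B' : ℤ} (hA' : A' ≠ 0) (hB' : B' ≠ 0) (hAB : A' ≠ B')
    (hsup : ∀ p : ℕ, p.Prime → (p : ℤ) ∣ A' - B' → (p : ℤ) ∣ A * B * (A - B))
    (hdA : ∀ r ∈ T, ¬ (r : ℤ) ∣ A') (hsym : ∀ r ∈ T, jacobiSym (A' * B') r = -1)
    {S : Finset ℕ} (hS : S ⊆ T) (hev : Even S.card) :
    (∀ (p : ℕ) [Fact p.Prime],
      LocI ℚ_[p] (pT (insert q T) * A') (pT (insert q T) * B') (pT S)) ∧
      LocI ℝ (pT (insert q T) * A') (pT (insert q T) * B') (pT S) := by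
  have hTp := hT.pr
  have hUp := pr_U hq.pr hTp
  have hd0 := pT_ne hUp
  have hSp : ∀ r ∈ S, r.Prime := fun r hr => hTp r (hS hr)
  have hS0 := pT_ne hSp
  have nA := mul_ne_zero hd0 hA'
  have nB := mul_ne_zero hd0 hB'
  obtain ⟨l1, l2⟩ := Pool.Agent.TH841.LS.LOCBf.locc (pT (insert q T) * A')
    (pT (insert q T) * B') (pT S) nA nB (fun h => hAB (mul_left_cancel₀ hd0 h)) hS0
  refine ⟨fun p hp => ?_, l2 (pT_pos hSp)⟩
  have hpp := hp.out
  have hpi : Prime (p : ℤ) := Nat.prime_iff_prime_int.1 hpp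
  by_cases hpY : p ≤ Y
  · exact l1 p (Or.inl (isSquare_pT S fun r hr => hT.sqs p hpY r (hS hr)))
  have hYp : Y < p := not_le.1 hpY
  have hp2 : p ≠ 2 := by omega
  by_cases hpT : p ∈ T
  · obtain ⟨d', hd'⟩ : ∃ d', d' = pT ((insert q T).erase p) := ⟨_, rfl⟩
    have hd : pT (insert q T) = p * d' := by
      rw [hd']
      exact pT_erase (mem_insert_of_mem hpT)
    have nd' : ¬ (p : ℤ) ∣ d' := by
      rw [hd']
      exact nd_pT (fun r hr => hUp r (mem_of_mem_erase hr)) hpp (notMem_erase p _)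
    refine Pool.Agent.TH841.LS.LOCDf.locd p _ _ _ hp2 nA nB
      (fun h => hAB (mul_left_cancel₀ hd0 h)) hS0 ?_ ?_
    · have h1 : ¬ (p : ℤ) ∣ d' * A' := fun h => (hpi.dvd_or_dvd h).elim nd' (hdA p hpT)
      have h2 : padicValInt p (pT (insert q T) * A') = 1 := by
        rw [hd, mul_assoc, padicValInt.mul (by exact_mod_cast hpp.ne_zero) (fun h => h1 (by
          rw [h]; exact dvd_zero _)), padicValInt.eq_zero_of_not_dvd h1]
        have : padicValInt p (p : ℤ) = 1 := by
          rw [padicValInt.of_nat]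
          exact padicValNat_self
        rw [this]
      rw [h2]
      exact odd_one
    · refine ⟨1, d' ^ 2 * (A' * B'), by rw [hd]; ring, ?_⟩
      rw [jacobiSym.mul_left, jacobiSym.pow_left, hsym p hpT]
      rcases jac_pm hpp nd' with h | h <;> rw [h] <;> norm_num
  by_cases hpq : p = q
  · refine l1 p (Or.inl (sq_pad hp2 ?_))
    rw [jac_prod S p 1 fun r hr => ?_, one_pow]
    rw [hpq]
    exact hT.qr r (hS hr)
  by_cases hN : (p : ℤ) ∣ A * B * (A - B)
  · obtain ⟨κ, hk1, hk⟩ := hT.kap hpp hN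
    refine l1 p (Or.inl (sq_pad hp2 ?_))
    rw [jac_prod S p κ fun r hr => hk r (hS hr), pm_even hk1 hev]
  · have hpU : p ∉ insert q T := by
      rw [mem_insert]
      exact fun h => h.elim hpq hpT
    refine Pool.Agent.TH841.LS.LOCAf.loca p _ _ _ (by omega) nA nB ?_
      (nd_pT hSp hpp (fun h => hpT (hS h)))
    rw [← mul_sub]
    intro h
    rcases hpi.dvd_or_dvd h with h | h
    · exact nd_pT hUp hpp hpU h
    · exact hN (hsup p hpp h)

lemma tri_mul' (j : Fin 3) (d a b : ℤ) :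
    tri j (d * a) (d * b) = (d * (tri j a b).1, d * (tri j a b).2) := by
  fin_cases j
  · rfl
  · change (-(d * a), d * b - d * a) = (d * (-a), d * (b - a))
    rw [mul_neg, mul_sub]
  · change (-(d * b), d * a - d * b) = (d * (-b), d * (a - b))
    rw [mul_neg, mul_sub]

/-- the number of squarefree divisors -/
lemma ncard_SQ {a b : ℤ} (hb : b ≠ 0) :
    (SQ a b).ncard ≤ 2 ^ (b.natAbs.primeFactors.card + 1) := by
  classical
  have hinj : Set.InjOn (fun d : ℤ => (decide (0 < d), d.natAbs.primeFactors)) (SQ a b) := by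
    intro d hd e he h
    simp only [Prod.mk.injEq] at h
    have h1 : d.natAbs = e.natAbs := by
      rw [← Nat.prod_primeFactors_of_squarefree (Int.squarefree_natAbs.2 hd.1),
        ← Nat.prod_primeFactors_of_squarefree (Int.squarefree_natAbs.2 he.1), h.2]
    have hd0 := hd.1.ne_zero
    have he0 := he.1.ne_zero
    have h2 : 0 < d ↔ 0 < e := by simpa using h.1
    omega
  have hmaps : ∀ d ∈ SQ a b, (decide (0 < d), d.natAbs.primeFactors) ∈
      (((univ : Finset Bool) ×ˢ b.natAbs.primeFactors.powerset : Finset (Bool × Finset ℕ)) :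
        Set (Bool × Finset ℕ)) := by
    intro d hd
    rw [mem_coe, mem_product, mem_powerset]
    exact ⟨mem_univ _, Nat.primeFactors_mono (Int.natAbs_dvd_natAbs.2 hd.2.1)
      (Int.natAbs_ne_zero.2 hb)⟩
  have h1 := Set.ncard_le_ncard_of_injOn _ hmaps hinj (Finset.finite_toSet _)
  rw [Set.ncard_coe_finset, card_product, card_powerset, card_univ, Fintype.card_bool] at h1
  rw [pow_succ, mul_comm]
  exact h1

/-- **The 2-isogenous curves.** -/
theorem quo (hY : 11 ≤ Y) (h1 : Ty1 Y A B) {s : ℕ → Bool}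
    (hs : ∀ e, InS Y A B s e → e = (1, 1)) (hq : GoodQ Y A B s q) (hT : GR Y A B x₀ q T)
    (hev : Even T.card) (j : Fin 3) (hj : j ≠ Fin.rev x₀) :
    Finite (WI (pT (insert q T) * (tri j A B).1)
      (pT (insert q T) * (tri j A B).2)).toAffine.Point ∧
    ∃ k : ℕ, T.card ≤ k + 3 ∧
      k ≤ T.card + ((A * B * (A - B)).natAbs.primeFactors.card + 2) ∧
      ∃ φ : (Fin k → ZMod 2) →+ Sha (WI (pT (insert q T) * (tri j A B).1)
        (pT (insert q T) * (tri j A B).2)), Function.Injective φ ∧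
        ∀ x, x ∈ Set.range φ ↔ ∃ j : ℕ, (2 ^ j) • x = 0 := by
  have hTp := hT.pr
  have hqp := hq.pr
  have hUp := pr_U hqp hTp
  have hN : A * B * (A - B) ≠ 0 := fun h => hq.nd (by rw [h]; exact dvd_zero _)
  have hA0 : A ≠ 0 := left_ne_zero_of_mul (left_ne_zero_of_mul hN)
  have hB0 : B ≠ 0 := right_ne_zero_of_mul (left_ne_zero_of_mul hN)
  have hC0 : A - B ≠ 0 := right_ne_zero_of_mul hN
  have hAB : A ≠ B := sub_ne_zero.1 hC0
  obtain ⟨hfin, hcard⟩ := selU_card (by omega) h1 hs hq hT hev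
  obtain ⟨d, hd⟩ : ∃ d, d = pT (insert q T) := ⟨_, rfl⟩
  have hd0 : d ≠ 0 := by rw [hd]; exact pT_ne hUp
  have hdA : d * A ≠ 0 := mul_ne_zero hd0 hA0
  have hdB : d * B ≠ 0 := mul_ne_zero hd0 hB0
  have hdAB : d * A ≠ d * B := fun h => hAB (mul_left_cancel₀ hd0 h)
  have h4 : (Sel (d * A) (d * B)).ncard ≤ 4 := by
    rw [hd]
    refine (Set.ncard_le_ncard (fun e he => ?_) hfin).trans hcard
    exact ⟨he.1, he.2.1, he.2.2.1, he.2.2.2⟩
  obtain ⟨-, -, h5⟩ := one Pool.Agent.Y497.IS.lcb Pool.Agent.Y500.IS.lqu Pool.Agent.Y500.IS.sqf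
    hdA hdB hdAB h4
  have h6 := h5 j
  obtain ⟨n1, n2, n3⟩ := tri_ne hdA hdB hdAB j
  obtain ⟨s1, s2⟩ := sel_tri hdA hdB hdAB j
  obtain ⟨rk0, -⟩ := sel4_EQ n1 n2 n3 (by rw [s2]; exact h4)
  obtain ⟨t1, t2, t3⟩ := tri_ne hA0 hB0 hAB j
  rw [tri_mul'] at h6 n1 n2 n3 rk0
  dsimp only at h6 n1 n2 n3 rk0
  obtain ⟨f1, k, hk, φ, hφ1, hφ2⟩ := h6
  have hJ1 : ∀ r ∈ T, jacobiSym (-1) r = 1 := by
    intro r hr
    have h8 := hT.m8 r hr
    rw [jacobiSym.at_neg_one (Nat.odd_iff.2 (by omega)), ZMod.χ₄_nat_one_mod_four (by omega)]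
  have hsup : ∀ p : ℕ, p.Prime → (p : ℤ) ∣ (tri j A B).1 - (tri j A B).2 →
      (p : ℤ) ∣ A * B * (A - B) := by
    intro p _ h
    fin_cases j
    · exact Dvd.dvd.mul_left h _
    · have e : (tri 1 A B).1 - (tri 1 A B).2 = -B := by
        change -A - (B - A) = -B
        ring
      have h' : (p : ℤ) ∣ -B := e ▸ h
      exact (((dvd_neg).1 h').mul_left _).mul_right _
    · have e : (tri 2 A B).1 - (tri 2 A B).2 = -A := by
        change -B - (A - B) = -A
        ring
      have h' : (p : ℤ) ∣ -A := e ▸ h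
      exact (((dvd_neg).1 h').mul_right _).mul_right _
  have hdvd : ∀ p : ℕ, p.Prime → ((p : ℤ) ∣ (tri j A B).1 ∨ (p : ℤ) ∣ (tri j A B).2) →
      (p : ℤ) ∣ A * B * (A - B) := by
    intro p _ h
    fin_cases j
    · rcases h with h | h
      · exact (Dvd.dvd.mul_right h _).mul_right _
      · exact (Dvd.dvd.mul_left h _).mul_right _
    · rcases h with h | h
      · exact (((dvd_neg).1 (show (p : ℤ) ∣ -A from h)).mul_right _).mul_right _
      · have h' : (p : ℤ) ∣ -(A - B) := by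
          have e : -(A - B) = B - A := by ring
          rw [e]
          exact h
        exact ((dvd_neg).1 h').mul_left _
    · rcases h with h | h
      · exact (((dvd_neg).1 (show (p : ℤ) ∣ -B from h)).mul_left _).mul_right _
      · exact Dvd.dvd.mul_left (show (p : ℤ) ∣ A - B from h) _
  have hsym : ∀ r ∈ T, jacobiSym ((tri j A B).1 * (tri j A B).2) r = -1 := by
    intro r hr
    have jA := hT.jA r hr
    have jB := hT.jB r hr
    have jC := hT.jC r hr
    have j1 := hJ1 r hr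
    have jBA : jacobiSym (B - A) r = jacobiSym (A - B) r := by
      have : B - A = -1 * (A - B) := by ring
      rw [this, jacobiSym.mul_left, j1, one_mul]
    have jnA : jacobiSym (-A) r = jacobiSym A r := by
      rw [← neg_one_mul, jacobiSym.mul_left, j1, one_mul]
    have jnB : jacobiSym (-B) r = jacobiSym B r := by
      rw [← neg_one_mul, jacobiSym.mul_left, j1, one_mul]
    rw [jacobiSym.mul_left]
    have hx : ∀ x₀ : Fin 3, ∀ j : Fin 3, j ≠ Fin.rev x₀ →
        ((![(if 0 = x₀ then 1 else -1), (if 0 = x₀ then 1 else -1),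
          (if 1 = x₀ then 1 else -1)] : Fin 3 → ℤ) j) *
        ((![(if 1 = x₀ then 1 else -1), (if 2 = x₀ then 1 else -1),
          (if 2 = x₀ then 1 else -1)] : Fin 3 → ℤ) j) = -1 := by decide
    have hx1 := hx x₀ j hj
    fin_cases j
    · change jacobiSym A r * jacobiSym B r = -1
      rw [jA, jB]
      exact hx1
    · change jacobiSym (-A) r * jacobiSym (B - A) r = -1
      rw [jnA, jBA, jA, jC]
      exact hx1
    · change jacobiSym (-B) r * jacobiSym (A - B) r = -1
      rw [jnB, jB, jC]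
      exact hx1
  rw [← hd]
  refine ⟨f1, k, ?_, ?_, φ, hφ1, hφ2⟩
  · obtain ⟨k', hk', φ', hφ'⟩ := tshl _ _ n3 n1 n2 T hTp (LinearMap.ker (sm T)) (by
      intro ε hε
      obtain ⟨S, hS, hSe, hSev⟩ := dd_eq ε hε
      rw [hSe, hd]
      exact locI_T hY hq hT t1 t2 t3 hsup (fun r hr h =>
        hT.nd r hr (hdvd r (hTp r hr) (Or.inl h))) hsym hS hSev)
    have h7 := le_of_inj hφ2 hφ'
    have h8 := fr_sm T
    omega
  · refine hk.trans ?_
    have hb0 : d * (tri j A B).1 * (d * (tri j A B).2) ≠ 0 := mul_ne_zero n1 n2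
    unfold fo
    refine (Nat.log_mono_right (ncard_SQ hb0)).trans ?_
    rw [Nat.log_pow (by norm_num)]
    have hsub : (d * (tri j A B).1 * (d * (tri j A B).2)).natAbs.primeFactors ⊆
        insert q T ∪ (A * B * (A - B)).natAbs.primeFactors := by
      intro p hp
      have hpp := Nat.prime_of_mem_primeFactors hp
      have hpi : Prime (p : ℤ) := Nat.prime_iff_prime_int.1 hpp
      have hpd := Int.natCast_dvd.2 (Nat.dvd_of_mem_primeFactors hp)
      have key : (p : ℤ) ∣ d ∨ (p : ℤ) ∣ A * B * (A - B) := by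
        rcases hpi.dvd_or_dvd hpd with h | h <;> rcases hpi.dvd_or_dvd h with h | h
        · exact Or.inl h
        · exact Or.inr (hdvd p hpp (Or.inl h))
        · exact Or.inl h
        · exact Or.inr (hdvd p hpp (Or.inr h))
      rw [mem_union]
      rcases key with h | h
      · left
        by_contra hpU
        rw [hd] at h
        exact nd_pT hUp hpp hpU h
      · right
        rw [Nat.mem_primeFactors]
        exact ⟨hpp, Int.natCast_dvd.1 h, Int.natAbs_ne_zero.2 hN⟩
    have h9 := (card_le_card hsub).trans (card_union_le _ _)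
    rw [card_insert_of_notMem hT.nq] at h9
    omega

end

end Pool.Agent.K1H97.FU
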