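import Pool.Agent.K1H97.FU.Dir
import Pool.Agent.K1H97.FU.Quo
import Pool.Agent.Y676.MainB
import Mathlib.NumberTheory.SmoothNumbers

/-!
# Almost all tuples of curves
-/

set_option autoImplicit false

namespace Pool.Agent.K1H97.FU

open Finset
open Pool.Agent.Y676
open Pool.Agent.K1H97.CU
open Pool.Agent.W307.RT (Cv HasT Sh LOW)
open Pool.Agent.TH841.SH.D (Sha)
open Pool.Agent.TH841.LS (WI)
open Pool.Agent.Y676.IS (tri)

variable {k : ℕ}

/-- a large prime divides the first difference -/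
def NS (Y : ℕ) (t : ℤ × ℤ) : Prop := ∃ l : ℕ, l.Prime ∧ Y < l ∧ (l : ℤ) ∣ t.1

open Classical in
/-- the pairs with a smooth first element are rare -/
lemma smooth_cnt (Y : ℕ) (δ : ℝ) (hδ : 0 < δ) : ∃ X0 : ℕ, ∀ X : ℕ, X0 ≤ X →
    (((Bx X).filter (fun t => ¬ NS Y t)).card : ℝ) ≤ δ * (X : ℝ) ^ 2 := by
  obtain ⟨K, hK⟩ : ∃ K : ℕ, K = 2 ^ (Y + 1).primesBelow.card := ⟨_, rfl⟩
  obtain ⟨X0, hX0⟩ := exists_nat_ge ((6 * K / δ) ^ 2 + 1)
  refine ⟨X0, fun X hX => ?_⟩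
  have hX1 : (6 * (K : ℝ) / δ) ^ 2 + 1 ≤ X := hX0.trans (by exact_mod_cast hX)
  have hX2 : (1 : ℝ) ≤ X := by
    have : 0 ≤ (6 * (K : ℝ) / δ) ^ 2 := sq_nonneg _
    linarith
  have hXn : 1 ≤ X := by exact_mod_cast hX2
  obtain ⟨Z, hZ⟩ : ∃ Z : Finset ℕ, Z = Nat.smoothNumbersUpTo X (Y + 1) := ⟨_, rfl⟩
  have hZc : Z.card ≤ K * Nat.sqrt X := by
    rw [hZ, hK]
    exact Nat.smoothNumbersUpTo_card_le X (Y + 1)
  have hsub : (Bx X).filter (fun t => ¬ NS Y t) ⊆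
      ((Z.image (fun n : ℕ => (n : ℤ))) ∪ (Z.image (fun n : ℕ => -(n : ℤ)))) ×ˢ
        (Icc (-(X : ℤ)) X) := by
    intro t ht
    obtain ⟨h1, h2⟩ := mem_filter.1 ht
    unfold Bx at h1
    rw [mem_filter, mem_product, mem_Icc] at h1
    obtain ⟨⟨⟨a1, a2⟩, a3⟩, b1, -, -⟩ := h1
    rw [mem_product]
    refine ⟨?_, a3⟩
    have hm : t.1.natAbs ∈ Z := by
      rw [hZ, Nat.mem_smoothNumbersUpTo, Nat.mem_smoothNumbers]
      refine ⟨by omega, Int.natAbs_ne_zero.2 b1, fun p hp => ?_⟩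
      by_contra hcon
      exact h2 ⟨p, Nat.prime_of_mem_primeFactorsList hp, by omega,
        Int.natCast_dvd.2 (Nat.dvd_of_mem_primeFactorsList hp)⟩
    rw [mem_union, mem_image, mem_image]
    rcases Int.natAbs_eq t.1 with h3 | h3
    · exact Or.inl ⟨_, hm, h3.symm⟩
    · exact Or.inr ⟨_, hm, h3.symm⟩
  have h1 : ((Bx X).filter (fun t => ¬ NS Y t)).card ≤ (2 * (K * Nat.sqrt X)) * (3 * X) := by
    refine (card_le_card hsub).trans ?_
    rw [card_product]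
    apply Nat.mul_le_mul
    · refine (card_union_le _ _).trans ?_
      have h3 := card_image_le (s := Z) (f := fun n : ℕ => (n : ℤ))
      have h4 := card_image_le (s := Z) (f := fun n : ℕ => -(n : ℤ))
      omega
    · rw [Int.card_Icc]
      omega
  have h2 : (((Bx X).filter (fun t => ¬ NS Y t)).card : ℝ) ≤
      (2 * (K * Nat.sqrt X)) * (3 * X) := by exact_mod_cast h1
  have h3 : ((Nat.sqrt X : ℕ) : ℝ) ≤ Real.sqrt X := Real.nat_sqrt_le_real_sqrt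
  have h4 : 6 * (K : ℝ) / δ ≤ Real.sqrt X := by
    apply Real.le_sqrt_of_sq_le
    linarith
  rw [div_le_iff₀ hδ] at h4
  have h5 : Real.sqrt X * Real.sqrt X = X := Real.mul_self_sqrt (by linarith)
  have h6 : (0 : ℝ) ≤ Real.sqrt X := Real.sqrt_nonneg _
  have h7 : (0 : ℝ) ≤ K := Nat.cast_nonneg _
  calc (((Bx X).filter (fun t => ¬ NS Y t)).card : ℝ) ≤ (2 * (K * Nat.sqrt X)) * (3 * X) := h2
    _ ≤ (2 * (K * Real.sqrt X)) * (3 * X) := by gcongr
    _ = (6 * K) * (Real.sqrt X * X) := by ring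
    _ ≤ (Real.sqrt X * δ) * (Real.sqrt X * X) := by gcongr
    _ = δ * ((Real.sqrt X * Real.sqrt X) * X) := by ring
    _ = δ * (X : ℝ) ^ 2 := by rw [h5, pow_two]

/-- the quotient of `y² = x³ + A x + B` by the subgroup generated by `(e, 0)` -/
def QW (A e : ℤ) : WeierstrassCurve ℚ := ⟨0, -6 * (e : ℚ), 0, -(3 * (e : ℚ) ^ 2 + 4 * (A : ℚ)), 0⟩

/-- the Tate-Shafarevich groups of the twist and of the quotients by two of the points of order
two -/
def Gd (c : ℤ × ℤ) (d : ℤ) (n C : ℕ) (e₀ : ℤ) : Prop :=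
  Tv (Sh (d ^ 2 * c.1) (d ^ 3 * c.2)) ∧ ∀ e : ℤ, e ^ 3 + c.1 * e + c.2 = 0 → e ≠ e₀ →
    Finite (QW (d ^ 2 * c.1) (d * e)).toAffine.Point ∧ ∃ k : ℕ, n ≤ k + 3 ∧ k ≤ n + C ∧
      ∃ φ : (Fin k → ZMod 2) →+ Sha (QW (d ^ 2 * c.1) (d * e)), Function.Injective φ ∧
        ∀ x, x ∈ Set.range φ ↔ ∃ j : ℕ, (2 ^ j) • x = 0

lemma QW_eq {A d e f g : ℤ} (h0 : e + f + g = 0) (h1 : A = e * f + e * g + f * g) :
    WI (d * (f - e)) (d * (g - e)) = QW (d ^ 2 * A) (d * e) := by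
  have h0' : (g : ℚ) = -e - f := by
    have : g = -e - f := by omega
    rw [this]
    push_cast
    ring
  have h1' : (A : ℚ) = e * f + e * g + f * g := by
    rw [h1]
    push_cast
    ring
  unfold WI QW
  congr 1
  · push_cast
    rw [h0']
    ring
  · push_cast
    rw [h1', h0']
    ring

open Classical in
/-- the good primes -/
noncomputable def UQ (Q : ℕ) (x : Fin k → ℤ × ℤ) : Finset ℕ :=
  (Icc 1 Q).filter (fun q => q.Prime ∧
    ∀ e : Fin k → ℤ, (∀ i, (e i) ^ 3 + (x i).1 * e i + (x i).2 = 0) →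
      ∃ 𝒬 : Set ℕ, 𝒬.Infinite ∧ (∀ r ∈ 𝒬, r.Prime) ∧ q ∉ 𝒬 ∧ ∃ C : ℕ, ∀ T : Finset ℕ,
        (T : Set ℕ) ⊆ 𝒬 → Even T.card → ∀ i, Gd (x i) (q * pT T) T.card C (e i))

lemma good_gt {Y : ℕ} {A B : ℤ} {s : ℕ → Bool} {q : ℕ} (h0 : GoodQ Y A B s q) : Y < q := by
  have hm := h0.m8
  by_contra hcon
  push Not at hcon
  have h1 := h0.sm q h0.pr (by omega) hcon
  have : NeZero q := ⟨h0.pr.ne_zero⟩
  have h5 : jacobiSym (q : ℤ) q = 0 := by
    rw [jacobiSym.eq_zero_iff_not_coprime]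
    simp [h0.pr.ne_one]
  rw [h5] at h1
  norm_num at h1

/-- **one tuple** -/
theorem one_tuple (hk : 0 < k) {Y : ℕ} (hY : 11 ≤ Y) {x : Fin k → ℤ × ℤ}
    {r : Fin k → ℤ × ℤ × ℤ} (hr : ∀ i, PR3 (x i) (r i)) {X Q : ℕ}
    (hG : GT Y X Q (fun i => ((r i).2.1 - (r i).1, (r i).2.2 - (r i).1)))
    (hns : ∀ i, NS Y ((r i).2.1 - (r i).1, (r i).2.2 - (r i).1))
    (hnz : ∀ i, ((r i).2.1 - (r i).1) * ((r i).2.2 - (r i).1) *
      (((r i).2.1 - (r i).1) - ((r i).2.2 - (r i).1)) ≠ 0)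
    {q : ℕ} (hqp : q.Prime) (hq : ∀ i, ∃ s : ℕ → Bool,
      (∀ e, InS Y ((r i).2.1 - (r i).1) ((r i).2.2 - (r i).1) s e → e = (1, 1)) ∧
        GoodQ Y ((r i).2.1 - (r i).1) ((r i).2.2 - (r i).1) s q)
    (e : Fin k → ℤ) (he : ∀ i, (e i) ^ 3 + (x i).1 * e i + (x i).2 = 0) :
    ∃ 𝒬 : Set ℕ, 𝒬.Infinite ∧ (∀ r ∈ 𝒬, r.Prime) ∧ q ∉ 𝒬 ∧ ∃ C : ℕ, ∀ T : Finset ℕ,
        (T : Set ℕ) ⊆ 𝒬 → Even T.card → ∀ i, Gd (x i) (q * pT T) T.card C (e i) := by
  classical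
  obtain ⟨t, ht⟩ : ∃ t : Fin k → ℤ × ℤ,
    t = fun i => ((r i).2.1 - (r i).1, (r i).2.2 - (r i).1) := ⟨_, rfl⟩
  have ht1 : ∀ i, (t i).1 = (r i).2.1 - (r i).1 := fun i => by rw [ht]
  have ht2 : ∀ i, (t i).2 = (r i).2.2 - (r i).1 := fun i => by rw [ht]
  rw [← ht] at hG
  choose s hs hq using hq
  have hqY : Y < q := good_gt (hq ⟨0, hk⟩)
  -- large primes
  have hm : ∀ i x, ∃ l : ℕ, l.Prime ∧ Y < l ∧ (l : ℤ) ∣ Df (t i).1 (t i).2 x := by
    intro i x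
    obtain ⟨⟨l, l1, l2, l3, -⟩, ⟨l', l1', l2', l3', -⟩⟩ := hG.ty2 i 2
      (Int.prime_two.squarefree) (by norm_num) (fun p hp hd => by
        have h1 : p ∣ 2 := by exact_mod_cast hd
        have := Nat.le_of_dvd (by norm_num) h1
        omega)
    fin_cases x
    · obtain ⟨m, m1, m2, m3⟩ := hns i
      exact ⟨m, m1, m2, by rw [← ht1] at m3; exact m3⟩
    · exact ⟨l, l1, l2, l3⟩
    · exact ⟨l', l1', l2', l3'⟩
  choose m hmp hmY hmd using hm
  have hTY : TY Y t m := ⟨by omega, hG.ty1, fun i => by rw [ht1, ht2]; exact hnz i, hG.crs,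
    hmp, hmY, hmd⟩
  have hq' : ∀ i, GoodQ Y (t i).1 (t i).2 (s i) q := fun i => by rw [ht1, ht2]; exact hq i
  -- the excluded roots
  obtain ⟨ρ, hρ⟩ : ∃ ρ : Fin k → Fin 3 → ℤ, ρ = fun i => ![(r i).1, (r i).2.1, (r i).2.2] :=
    ⟨_, rfl⟩
  have hroot : ∀ i (y : ℤ), y ^ 3 + (x i).1 * y + (x i).2 = 0 → ∃ j, y = ρ i j := by
    intro i y hy
    rw [(hr i).rt] at hy
    rw [hρ]
    rcases mul_eq_zero.1 hy with h | h
    · rcases mul_eq_zero.1 h with h | h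
      · exact ⟨0, sub_eq_zero.1 h⟩
      · exact ⟨1, sub_eq_zero.1 h⟩
    · exact ⟨2, sub_eq_zero.1 h⟩
  have hj : ∀ i, ∃ j, e i = ρ i j := fun i => hroot i (e i) (he i)
  choose j₀ hj₀ using hj
  obtain ⟨𝒬, i1, i2, i3, i4⟩ := exists_R hTY hqp hqY hq' (fun i => Fin.rev (j₀ i))
  refine ⟨𝒬, i1, i2, i3, ∑ i, (((t i).1 * (t i).2 * ((t i).1 - (t i).2)).natAbs.primeFactors.card
    + 2), fun T hT hev i => ?_⟩
  have hGR := i4 T hT i
  have hqT : q ∉ T := hGR.nq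
  rw [← pT_U hqT]
  have hcoef := coef (hr i)
  obtain ⟨c0, c1, c2⟩ := hcoef
  refine ⟨?_, fun y hy hye => ?_⟩
  · have := hGR
    rw [ht1, ht2] at this
    have hty := hG.ty1 i
    rw [ht1, ht2] at hty
    exact tw_U (hr i).rt (by omega) hty (hs i) (hq i) this hev
  · obtain ⟨j, rfl⟩ := hroot i y hy
    have hjne : j ≠ Fin.rev (Fin.rev (j₀ i)) := by
      rw [Fin.rev_rev]
      rintro rfl
      exact hye (hj₀ i).symm
    have hquo := quo hY (hG.ty1 i) (s := s i)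
      (by rw [ht1, ht2]; exact hs i) (hq' i) hGR hev j hjne
    have hW : WI (pT (insert q T) * (tri j (t i).1 (t i).2).1)
        (pT (insert q T) * (tri j (t i).1 (t i).2).2) =
        QW ((pT (insert q T)) ^ 2 * (x i).1) (pT (insert q T) * ρ i j) := by
      rw [ht1, ht2, hρ]
      fin_cases j
      · exact QW_eq c0 c1
      · have h3 := QW_eq (A := (x i).1) (d := pT (insert q T)) (e := (r i).2.1) (f := (r i).1)
          (g := (r i).2.2) (by linarith) (by rw [c1]; ring)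
        have e1 : (tri 1 ((r i).2.1 - (r i).1) ((r i).2.2 - (r i).1)).1 = (r i).1 - (r i).2.1 := by
          change -((r i).2.1 - (r i).1) = _
          ring
        have e2 : (tri 1 ((r i).2.1 - (r i).1) ((r i).2.2 - (r i).1)).2 =
            (r i).2.2 - (r i).2.1 := by
          change ((r i).2.2 - (r i).1) - ((r i).2.1 - (r i).1) = _
          ring
        change WI (pT (insert q T) * (tri 1 ((r i).2.1 - (r i).1) ((r i).2.2 - (r i).1)).1)
          (pT (insert q T) * (tri 1 ((r i).2.1 - (r i).1) ((r i).2.2 - (r i).1)).2) = _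
        rw [e1, e2]
        exact h3
      · have h3 := QW_eq (A := (x i).1) (d := pT (insert q T)) (e := (r i).2.2) (f := (r i).1)
          (g := (r i).2.1) (by linarith) (by rw [c1]; ring)
        have e1 : (tri 2 ((r i).2.1 - (r i).1) ((r i).2.2 - (r i).1)).1 = (r i).1 - (r i).2.2 := by
          change -((r i).2.2 - (r i).1) = _
          ring
        have e2 : (tri 2 ((r i).2.1 - (r i).1) ((r i).2.2 - (r i).1)).2 =
            (r i).2.1 - (r i).2.2 := by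
          change ((r i).2.1 - (r i).1) - ((r i).2.2 - (r i).1) = _
          ring
        change WI (pT (insert q T) * (tri 2 ((r i).2.1 - (r i).1) ((r i).2.2 - (r i).1)).1)
          (pT (insert q T) * (tri 2 ((r i).2.1 - (r i).1) ((r i).2.2 - (r i).1)).2) = _
        rw [e1, e2]
        exact h3
    rw [hW] at hquo
    obtain ⟨f1, k', k1, k2, hφ⟩ := hquo
    refine ⟨f1, k', k1, k2.trans ?_, hφ⟩
    have h5 : ((t i).1 * (t i).2 * ((t i).1 - (t i).2)).natAbs.primeFactors.card + 2 ≤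
        ∑ i, (((t i).1 * (t i).2 * ((t i).1 - (t i).2)).natAbs.primeFactors.card + 2) :=
      single_le_sum (f := fun i => ((t i).1 * (t i).2 * ((t i).1 - (t i).2)).natAbs.primeFactors.card
        + 2) (fun _ _ => Nat.zero_le _) (mem_univ i)
    omega

open Classical in
/-- **almost all tuples of curves** -/
theorem main (hkey : S_KEY) (hmom : S_MOM) (k : ℕ) (hk : 0 < k) (ε : ℝ) (hε : 0 < ε) :
    ∃ c : ℝ, 0 < c ∧ ∃ H0 : ℕ, ∀ H : ℕ, H0 ≤ H → ∀ Q : ℕ, (Real.log H) ^ (CE k) ≤ Q →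
    (((CT k H).filter (fun x => ¬ c * Q / Real.log Q ≤ ((UQ Q x).card : ℝ))).card : ℝ) ≤
      ε * ((Cv 2 H).card : ℝ) ^ k := by
  obtain ⟨K, hK, hT⟩ := transfer k
  obtain ⟨δ, hδ⟩ : ∃ δ : ℝ, δ = ε / (3 * (K + 1)) := ⟨_, rfl⟩
  have hδ0 : 0 < δ := by rw [hδ]; positivity
  have hδk : 0 < δ / ((k + 1) * 9 ^ k) := by positivity
  obtain ⟨Y1, hY12, hY1⟩ := box_all k δ hδ0
  obtain ⟨Y2, hY22, hY2⟩ := pos_count hkey hmom (δ / ((k + 1) * 9 ^ k)) hδk
  obtain ⟨Y, hY⟩ : ∃ Y : ℕ, Y = max (max Y1 Y2) 11 := ⟨_, rfl⟩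
  have hY11 : 11 ≤ Y := by rw [hY]; exact le_max_right _ _
  have hYge : 2 ≤ Y := by omega
  obtain ⟨X1, hX1⟩ := hY1 Y (by rw [hY]; exact (le_max_left _ _).trans (le_max_left _ _))
  obtain ⟨c, hc, X2, hX2⟩ := hY2 Y (by
    rw [hY]; exact (le_max_right _ _).trans (le_max_left _ _))
  obtain ⟨X3, hX3⟩ := smooth_cnt Y (δ / ((k + 1) * 9 ^ k)) hδk
  have hW0 : 0 < WY Y := by unfold WY; have := Nat.factorial_pos Y; positivity
  obtain ⟨c', Q0, hc', hpnt⟩ := Pool.Agent.Y157.SH.pnt (WY Y) hW0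
  refine ⟨c ^ k / 2 * c', by positivity, ?_⟩
  have tL : Filter.Tendsto (fun X : ℕ => Real.log (X : ℝ)) Filter.atTop Filter.atTop :=
    Real.tendsto_log_atTop.comp tendsto_natCast_atTop_atTop
  obtain ⟨H1, hH1⟩ := Filter.eventually_atTop.1 ((tL.eventually_ge_atTop 1).and
    (tL.eventually_ge_atTop (Q0 + 2)))
  obtain ⟨H2, hH2⟩ := hT (X1 + X2 + X3 + 2)
  refine ⟨H1 + H2, fun H hH Q hQ => ?_⟩
  obtain ⟨b1, b3⟩ := hH1 H (by omega)
  obtain ⟨T, a1, a2, a3, a4⟩ := hH2 H (by omega)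
  have hT0 : (0 : ℝ) < T := by exact_mod_cast (by omega : 0 < T)
  have hlogTH : Real.log T ≤ Real.log H := Real.log_le_log hT0 (by exact_mod_cast a2)
  have hlogT0 : 0 ≤ Real.log T := Real.log_nonneg (by exact_mod_cast (by omega : 1 ≤ T))
  have hQT : (Real.log T) ^ (CE k) ≤ 2 * Q := by
    have h1 : (Real.log T) ^ (CE k) ≤ (Real.log H) ^ (CE k) := pow_le_pow_left₀ hlogT0 hlogTH _
    have h2 : (0 : ℝ) ≤ Q := Nat.cast_nonneg _
    linarith
  have hQQ : ((Q0 : ℝ) + 2) ≤ Q := by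
    have e1 : Real.log H ≤ (Real.log H) ^ (CE k) := le_self_pow₀ b1 (by unfold CE; omega)
    linarith
  have hQ0 : Q0 ≤ Q := by
    have : (Q0 : ℝ) ≤ Q := by linarith
    exact_mod_cast this
  -- the exceptional tuples of the box
  let p : (Fin k → ℤ × ℤ) → Prop := fun t => ¬ GT Y T Q t ∨ ∃ i, ¬ Pst Y c (t i) ∨ ¬ NS Y (t i)
  have hp : (((TB k T).filter p).card : ℝ) ≤ 3 * δ * (T : ℝ) ^ (2 * k) := by
    have hsub : (TB k T).filter p ⊆ (TB k T).filter (fun t => ¬ GT Y T Q t) ∪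
        univ.biUnion (fun i : Fin k => (TB k T).filter (fun t => ¬ Pst Y c (t i))) ∪
        univ.biUnion (fun i : Fin k => (TB k T).filter (fun t => ¬ NS Y (t i))) := by
      intro t ht
      rw [mem_filter] at ht
      rw [mem_union, mem_union, mem_biUnion, mem_biUnion]
      rcases ht.2 with h | ⟨i, h | h⟩
      · exact Or.inl (Or.inl (mem_filter.2 ⟨ht.1, h⟩))
      · exact Or.inl (Or.inr ⟨i, mem_univ _, mem_filter.2 ⟨ht.1, h⟩⟩)
      · exact Or.inr ⟨i, mem_univ _, mem_filter.2 ⟨ht.1, h⟩⟩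
    have h1 := (card_le_card hsub).trans ((card_union_le _ _).trans
      (Nat.add_le_add ((card_union_le _ _).trans (Nat.add_le_add_left card_biUnion_le _))
        card_biUnion_le))
    have h2 : (((TB k T).filter p).card : ℝ) ≤ (((TB k T).filter (fun t => ¬ GT Y T Q t)).card : ℝ) +
        ∑ i : Fin k, (((TB k T).filter (fun t => ¬ Pst Y c (t i))).card : ℝ) +
        ∑ i : Fin k, (((TB k T).filter (fun t => ¬ NS Y (t i))).card : ℝ) := by
      exact_mod_cast h1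
    have h3 := hX1 T (by omega) Q hQT
    have h4 : ∀ i ∈ (univ : Finset (Fin k)), (((TB k T).filter
        (fun t => ¬ Pst Y c (t i))).card : ℝ) ≤
        δ / ((k + 1) * 9 ^ k) * 9 ^ k * (T : ℝ) ^ (2 * k) := fun i _ =>
      tup_one T (by omega) (fun x => ¬ Pst Y c x) i _ (hX2 T (by omega))
    have h4' : ∀ i ∈ (univ : Finset (Fin k)), (((TB k T).filter
        (fun t => ¬ NS Y (t i))).card : ℝ) ≤
        δ / ((k + 1) * 9 ^ k) * 9 ^ k * (T : ℝ) ^ (2 * k) := fun i _ =>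
      tup_one T (by omega) (fun x => ¬ NS Y x) i _ (hX3 T (by omega))
    have h5 := sum_le_sum h4
    have h5' := sum_le_sum h4'
    rw [sum_const, card_univ, Fintype.card_fin, nsmul_eq_mul] at h5 h5'
    have h6 : (k : ℝ) * (δ / ((k + 1) * 9 ^ k) * 9 ^ k * (T : ℝ) ^ (2 * k)) =
        (k / (k + 1)) * (δ * (T : ℝ) ^ (2 * k)) := by
      field_simp
    have h7 : (k : ℝ) / (k + 1) ≤ 1 := by
      rw [div_le_one (by positivity)]
      linarith
    have h8 : (k : ℝ) / (k + 1) * (δ * (T : ℝ) ^ (2 * k)) ≤ 1 * (δ * (T : ℝ) ^ (2 * k)) :=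
      mul_le_mul_of_nonneg_right h7 (by positivity)
    rw [h6] at h5 h5'
    linarith
  have h5 := a4 (3 * δ) (by positivity) p hp
  have hlQ : 0 < Real.log Q := by
    apply Real.log_pos
    have : (0 : ℝ) ≤ Q0 := Nat.cast_nonneg _
    linarith
  have h6 : (((CT k H).filter (fun x => ¬ c ^ k / 2 * c' * Q / Real.log Q ≤
      ((UQ Q x).card : ℝ))).card : ℝ) ≤
      (((CT k H).filter (fun x => p (fun i => Ab (x i)))).card : ℝ) := by
    have : (CT k H).filter (fun x => ¬ c ^ k / 2 * c' * Q / Real.log Q ≤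
      ((UQ Q x).card : ℝ)) ⊆ (CT k H).filter (fun x => p (fun i => Ab (x i))) := by
      intro x hx
      rw [mem_filter] at hx ⊢
      refine ⟨hx.1, ?_⟩
      by_contra hcon
      change ¬ (¬ GT Y T Q (fun i => Ab (x i)) ∨
        ∃ i, ¬ Pst Y c (Ab (x i)) ∨ ¬ NS Y (Ab (x i))) at hcon
      push Not at hcon
      obtain ⟨hG, hP⟩ := hcon
      apply hx.2
      obtain ⟨S, s2, s3⟩ := many_good2 hc (a3 x hx.1) hG (fun i => (hP i).1)
      have hsub : S ⊆ UQ Q x := by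
        intro q hq
        obtain ⟨hqp, q1, q2⟩ := s2 q hq
        have hx1 := hx.1
        unfold CT at hx1
        rw [Fintype.mem_piFinset] at hx1
        unfold UQ
        rw [mem_filter, mem_Icc]
        refine ⟨⟨hqp.one_lt.le, q1⟩, hqp, fun e he => ?_⟩
        have hnz : ∀ i, (Ab (x i)).1 * (Ab (x i)).2 * ((Ab (x i)).1 - (Ab (x i)).2) ≠ 0 := by
          intro i
          have h9 := Nn_ne (mem_TB.1 (a3 x hx.1) i)
          unfold Nn at h9
          exact Int.natAbs_ne_zero.1 h9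
        exact one_tuple hk hY11 (fun i => pr_EE (hx1 i)) hG (fun i => (hP i).2) hnz hqp q2 e he
      have h7 : (S.card : ℝ) ≤ ((UQ Q x).card : ℝ) := by exact_mod_cast card_le_card hsub
      refine le_trans ?_ (s3.trans h7)
      have h8 := hpnt Q hQ0
      have h9 : 0 ≤ c ^ k / 2 := by positivity
      calc c ^ k / 2 * c' * Q / Real.log Q = c ^ k / 2 * (c' * Q / Real.log Q) := by ring
        _ ≤ _ := mul_le_mul_of_nonneg_left h8 h9
    exact_mod_cast card_le_card this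
  refine h6.trans (h5.trans ?_)
  apply mul_le_mul_of_nonneg_right _ (by positivity)
  rw [hδ]
  have e1 : 3 * (ε / (3 * (K + 1))) * K = ε * (K / (K + 1)) := by
    field_simp
  rw [e1]
  have e2 : K / (K + 1) ≤ 1 := by
    rw [div_le_one (by positivity)]
    linarith
  nlinarith

end Pool.Agent.K1H97.FU
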